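import Pool.Agent.LGG.Defs

set_option autoImplicit false

/-!
# MP_5b54e3_co, general sizes: the surviving extra pairs, from `U2` and `U4`
-/

namespace Pool.Agent.LGG

open Finset Pool.Agent.LGC

open Classical in
/-- the neighbours of `x` in `W` -/
noncomputable def Hnb {V : Type} (G : SimpleGraph V) (W : Finset V) (x : V) : Finset V :=
  W.filter (fun y => G.Adj x y)

theorem Hnb_card {V : Type} (G : SimpleGraph V) (W : Finset V) (x : V) :
    (Hnb G W x).card = dg G W x := by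
  classical
  unfold Hnb dg
  exact DET_fc W _ _ _

theorem Hnb_cdg {V : Type} (G : SimpleGraph V) (W : Finset V) (x y : V) :
    cdg G W x y = dg G (Hnb G W x) y := by
  classical
  unfold cdg dg Hnb
  rw [Finset.filter_filter]

open Classical in
/-- the vertices of low degree in `W` -/
noncomputable def HL {V : Type} (G : SimpleGraph V) (W : Finset V) (p η : ℝ) : Finset V :=
  W.filter (fun x => (dg G W x : ℝ) < (1 - η) * p * W.card)

open Classical in
/-- the vertices of `S` of high degree in `W` -/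
noncomputable def HB {V : Type} (G : SimpleGraph V) (S W : Finset V) (p η : ℝ) : Finset V :=
  S.filter (fun y => (1 + η) * p * W.card < (dg G W y : ℝ))

theorem HL_card {V : Type} (G : SimpleGraph V) (S W : Finset V) (p η w₀ x₀ : ℝ)
    (u2 : U2 G S p η w₀ x₀) (hWS : W ⊆ S) (hw : w₀ ≤ W.card) : ((HL G W p η).card : ℝ) ≤ x₀ := by
  classical
  have h := u2 W hWS hw
  refine le_trans (le_of_eq ?_) h
  unfold HL
  exact congrArg (Nat.cast : ℕ → ℝ) (DET_fc W _ _ _)

theorem HB_card {V : Type} (G : SimpleGraph V) (S W : Finset V) (p η w₁ x₁ : ℝ)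
    (u4 : U4 G S p η w₁ x₁) (hWS : W ⊆ S) (hw : w₁ ≤ W.card) :
    ((HB G S W p η).card : ℝ) ≤ x₁ := by
  classical
  have h := u4 W hWS hw
  refine le_trans (le_of_eq ?_) h
  unfold HB
  exact congrArg (Nat.cast : ℕ → ℝ) (DET_fc S _ _ _)

theorem mem_HL {V : Type} (G : SimpleGraph V) (W : Finset V) (p η : ℝ) (x : V) :
    x ∈ HL G W p η ↔ x ∈ W ∧ (dg G W x : ℝ) < (1 - η) * p * W.card := by
  classical
  unfold HL
  rw [Finset.mem_filter]

theorem mem_HB {V : Type} (G : SimpleGraph V) (S W : Finset V) (p η : ℝ) (x : V) :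
    x ∈ HB G S W p η ↔ x ∈ S ∧ (1 + η) * p * W.card < (dg G W x : ℝ) := by
  classical
  unfold HB
  rw [Finset.mem_filter]

theorem H_ind {X : Type} (F : Finset X) (P : X → Prop) (d1 d2 : DecidablePred P) :
    ((@Finset.filter X P d1 F).card : ℝ) =
      ∑ z ∈ F, (@ite ℝ (P z) (d2 z) 1 0) := by
  have := Subsingleton.elim d1 d2
  subst this
  rw [← Finset.sum_filter, Finset.sum_const, nsmul_eq_mul, mul_one]

/-- the number of extra pairs with first vertex in a small set -/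
theorem H_fst {V : Type} (E : Finset (Sym2 V)) (W L : Finset V) (D x₀ : ℝ) (hD0 : 0 ≤ D)
    (hD : ∀ x ∈ W, (DET_d E W x : ℝ) ≤ D) (hL : (L.card : ℝ) ≤ x₀)
    [DecidablePred (fun z : V × V => z.1 ∈ L)] :
    (((DET_E E W).filter (fun z => z.1 ∈ L)).card : ℝ) ≤ x₀ * D := by
  classical
  obtain ⟨f, hf⟩ : ∃ f : V → ℝ, f = fun x => if x ∈ L then (1 : ℝ) else 0 := ⟨_, rfl⟩
  have h1 : (((DET_E E W).filter (fun z => z.1 ∈ L)).card : ℝ) = ∑ z ∈ DET_E E W, f z.1 := by
    rw [hf]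
    exact H_ind _ _ _ _
  rw [h1, DET_sum_fst E W f]
  have h2 : ∑ x ∈ W, (DET_d E W x : ℝ) * f x ≤ ∑ x ∈ W, D * f x := by
    refine Finset.sum_le_sum fun x hx => mul_le_mul_of_nonneg_right (hD x hx) ?_
    rw [hf]
    simp only []
    split_ifs <;> norm_num
  refine h2.trans ?_
  rw [← Finset.mul_sum, hf, ← Finset.sum_filter, Finset.sum_const, nsmul_eq_mul, mul_one]
  have h3 : ((W.filter (fun x => x ∈ L)).card : ℝ) ≤ x₀ := by
    refine le_trans ?_ hL
    exact_mod_cast Finset.card_le_card (fun x hx => (Finset.mem_filter.1 hx).2)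
  rw [mul_comm]
  exact mul_le_mul_of_nonneg_right h3 hD0

/-- the number of extra pairs with second vertex in a small set -/
theorem H_snd {V : Type} (E : Finset (Sym2 V)) (W L : Finset V) (D x₀ : ℝ) (hD0 : 0 ≤ D)
    (hD : ∀ x ∈ W, (DET_d E W x : ℝ) ≤ D) (hL : (L.card : ℝ) ≤ x₀)
    [DecidablePred (fun z : V × V => z.2 ∈ L)] :
    (((DET_E E W).filter (fun z => z.2 ∈ L)).card : ℝ) ≤ x₀ * D := by
  classical
  obtain ⟨f, hf⟩ : ∃ f : V → ℝ, f = fun x => if x ∈ L then (1 : ℝ) else 0 := ⟨_, rfl⟩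
  have h1 : (((DET_E E W).filter (fun z => z.2 ∈ L)).card : ℝ) = ∑ z ∈ DET_E E W, f z.2 := by
    rw [hf]
    exact H_ind _ _ _ _
  rw [h1, DET_sum_snd E W f]
  have h2 : ∑ x ∈ W, (DET_d E W x : ℝ) * f x ≤ ∑ x ∈ W, D * f x := by
    refine Finset.sum_le_sum fun x hx => mul_le_mul_of_nonneg_right (hD x hx) ?_
    rw [hf]
    simp only []
    split_ifs <;> norm_num
  refine h2.trans ?_
  rw [← Finset.mul_sum, hf, ← Finset.sum_filter, Finset.sum_const, nsmul_eq_mul, mul_one]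
  have h3 : ((W.filter (fun x => x ∈ L)).card : ℝ) ≤ x₀ := by
    refine le_trans ?_ hL
    exact_mod_cast Finset.card_le_card (fun x hx => (Finset.mem_filter.1 hx).2)
  rw [mul_comm]
  exact mul_le_mul_of_nonneg_right h3 hD0

/-- a dependent product -/
theorem H_dep {V : Type} (W : Finset V) (P : V → Prop) (Bd : V → Finset V) (F : Finset (V × V))
    (x₁ : ℝ) (hx₁ : 0 ≤ x₁) (hF : ∀ z ∈ F, z.1 ∈ W ∧ P z.1 ∧ z.2 ∈ Bd z.1)
    (hB : ∀ x ∈ W, P x → ((Bd x).card : ℝ) ≤ x₁) : (F.card : ℝ) ≤ W.card * x₁ := by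
  classical
  have h1 : F ⊆ (W.filter P).biUnion (fun x => (Bd x).image (fun y => (x, y))) := by
    intro z hz
    obtain ⟨h1, h2, h3⟩ := hF z hz
    rw [Finset.mem_biUnion]
    refine ⟨z.1, Finset.mem_filter.2 ⟨h1, h2⟩, ?_⟩
    rw [Finset.mem_image]
    exact ⟨z.2, h3, rfl⟩
  have h2 : F.card ≤ ∑ x ∈ W.filter P, (Bd x).card := by
    refine (Finset.card_le_card h1).trans (Finset.card_biUnion_le.trans ?_)
    exact Finset.sum_le_sum fun x _ => Finset.card_image_le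
  have h3 : (F.card : ℝ) ≤ ∑ x ∈ W.filter P, ((Bd x).card : ℝ) := by exact_mod_cast h2
  refine h3.trans ?_
  calc ∑ x ∈ W.filter P, ((Bd x).card : ℝ) ≤ ∑ x ∈ W.filter P, x₁ := by
        refine Finset.sum_le_sum fun x hx => ?_
        rw [Finset.mem_filter] at hx
        exact hB x hx.1 hx.2
    _ = (W.filter P).card * x₁ := by rw [Finset.sum_const, nsmul_eq_mul]
    _ ≤ W.card * x₁ := by
        refine mul_le_mul_of_nonneg_right ?_ hx₁
        exact_mod_cast Finset.card_filter_le _ _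

theorem sumF {V : Type} (G : SimpleGraph V) (E : Finset (Sym2 V)) (S W : Finset V)
    (p η w₀ x₀ w₁ x₁ X D : ℝ) (hWS : W ⊆ S) (hp : 0 < p) (hη : 0 ≤ η)
    (hη4 : η ≤ 1 / 4) (hw : w₀ ≤ W.card) (hw1 : w₁ ≤ (1 - η) * p * w₀) (hw10 : w₁ ≤ w₀)
    (hD : ∀ x ∈ W, (DET_d E W x : ℝ) ≤ D) (hD0 : 0 ≤ D) (hx1 : 0 ≤ x₁)
    (hX : 2 * x₀ * D + x₁ * D + S.card * x₁ ≤ X) (u2 : U2 G S p η w₀ x₀)
    (u4 : U4 G S p η w₁ x₁) :
    ∑ v ∈ W, (DET_F E (DET_W G E W v) : ℝ) ≤
      W.card * ((DET_F E W : ℝ) * (1 - (2 * (1 - η) * p - (1 + η) ^ 2 * p ^ 2)) +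
        2 * p * X) := by
  classical
  have h1 : ∀ v ∈ W, (DET_F E (DET_W G E W v) : ℝ) ≤
      ∑ z ∈ DET_E E W, (if ¬ G.Adj v z.1 ∧ ¬ G.Adj v z.2 then (1 : ℝ) else 0) := by
    intro v _
    rw [← Finset.sum_filter, Finset.sum_const, nsmul_eq_mul, mul_one]
    unfold DET_F
    rw [Nat.cast_le]
    refine Finset.card_le_card fun z hz => ?_
    have h2 := DET_E_mono E (DET_W_sub G E W v) hz
    rw [Finset.mem_filter]
    refine ⟨h2, ?_⟩
    unfold DET_E at hz
    rw [Finset.mem_filter, Finset.mem_product, DET_W_mem, DET_W_mem] at hz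
    exact ⟨hz.1.1.2.2.1, hz.1.2.2.2.1⟩
  have hW0 : (0 : ℝ) ≤ W.card := Nat.cast_nonneg _
  have h1η : 0 ≤ 1 - η := by linarith
  obtain ⟨b, hb⟩ : ∃ b : ℝ, b = 2 * (1 - η) * p - (1 + η) ^ 2 * p ^ 2 := ⟨_, rfl⟩
  rw [← hb]
  have hb2 : b ≤ 2 * p := by
    rw [hb]
    have : 0 ≤ (1 + η) ^ 2 * p ^ 2 := by positivity
    have : 0 ≤ η * p := by positivity
    nlinarith
  -- the bad pairs
  obtain ⟨Q, hQ⟩ : ∃ Q : V × V → Prop, Q = fun z => z.1 ∈ HL G W p η ∨ z.2 ∈ HL G W p η ∨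
      z.1 ∈ HB G S W p η ∨ ((z.1 ∉ HL G W p η ∧ z.1 ∉ HB G S W p η) ∧
        z.2 ∈ HB G S (Hnb G W z.1) p η) := ⟨_, rfl⟩
  have hmemE : ∀ z ∈ DET_E E W, z.1 ∈ W ∧ z.2 ∈ W := by
    intro z hz
    unfold DET_E at hz
    rw [Finset.mem_filter, Finset.mem_product] at hz
    exact hz.1
  have hbad : (((DET_E E W).filter Q).card : ℝ) ≤ X := by
    have c1 := H_fst E W (HL G W p η) D x₀ hD0 hD (HL_card G S W p η w₀ x₀ u2 hWS hw)
    have c2 := H_snd E W (HL G W p η) D x₀ hD0 hD (HL_card G S W p η w₀ x₀ u2 hWS hw)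
    have c3 := H_fst E W (HB G S W p η) D x₁ hD0 hD
      (HB_card G S W p η w₁ x₁ u4 hWS (hw10.trans hw))
    have c4 := H_dep W (fun x => x ∉ HL G W p η ∧ x ∉ HB G S W p η)
      (fun x => HB G S (Hnb G W x) p η)
      ((DET_E E W).filter (fun z => (z.1 ∉ HL G W p η ∧ z.1 ∉ HB G S W p η) ∧
        z.2 ∈ HB G S (Hnb G W z.1) p η)) x₁ hx1 (by
          intro z hz
          rw [Finset.mem_filter] at hz
          exact ⟨(hmemE z hz.1).1, hz.2.1, hz.2.2⟩) (by
          intro x hx hP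
          refine HB_card G S (Hnb G W x) p η w₁ x₁ u4 ((Finset.filter_subset _ _).trans hWS) ?_
          rw [Hnb_card]
          have h5 : (1 - η) * p * W.card ≤ dg G W x := by
            by_contra hlt
            exact hP.1 ((mem_HL G W p η x).2 ⟨hx, not_le.1 hlt⟩)
          refine hw1.trans (le_trans ?_ h5)
          exact mul_le_mul_of_nonneg_left hw (by positivity))
    have c5 : (W.card : ℝ) * x₁ ≤ S.card * x₁ := by
      refine mul_le_mul_of_nonneg_right ?_ hx1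
      exact_mod_cast Finset.card_le_card hWS
    have c6 : (DET_E E W).filter Q ⊆
        (DET_E E W).filter (fun z => z.1 ∈ HL G W p η) ∪
        ((DET_E E W).filter (fun z => z.2 ∈ HL G W p η) ∪
        ((DET_E E W).filter (fun z => z.1 ∈ HB G S W p η) ∪
        ((DET_E E W).filter (fun z => (z.1 ∉ HL G W p η ∧ z.1 ∉ HB G S W p η) ∧
          z.2 ∈ HB G S (Hnb G W z.1) p η)))) := by
      intro z hz
      rw [Finset.mem_filter, hQ] at hz
      simp only [Finset.mem_union, Finset.mem_filter]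
      rcases hz.2 with h | h | h | h
      · exact Or.inl ⟨hz.1, h⟩
      · exact Or.inr (Or.inl ⟨hz.1, h⟩)
      · exact Or.inr (Or.inr (Or.inl ⟨hz.1, h⟩))
      · exact Or.inr (Or.inr (Or.inr ⟨hz.1, h⟩))
    have c7 := (Finset.card_le_card c6).trans ((Finset.card_union_le _ _).trans
      (Nat.add_le_add_left ((Finset.card_union_le _ _).trans
        (Nat.add_le_add_left (Finset.card_union_le _ _) _)) _))
    have c8 : (((DET_E E W).filter Q).card : ℝ) ≤
        (((DET_E E W).filter (fun z => z.1 ∈ HL G W p η)).card : ℝ) +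
        ((((DET_E E W).filter (fun z => z.2 ∈ HL G W p η)).card : ℝ) +
        ((((DET_E E W).filter (fun z => z.1 ∈ HB G S W p η)).card : ℝ) +
        (((DET_E E W).filter (fun z => (z.1 ∉ HL G W p η ∧ z.1 ∉ HB G S W p η) ∧
          z.2 ∈ HB G S (Hnb G W z.1) p η)).card : ℝ))) := by
      exact_mod_cast c7
    linarith
  -- the good pairs
  have hgood : ∀ z ∈ DET_E E W, ¬ Q z →
      ∑ v ∈ W, (if ¬ G.Adj v z.1 ∧ ¬ G.Adj v z.2 then (1 : ℝ) else 0) ≤ W.card * (1 - b) := by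
    intro z hz hQz
    rw [DET_incl]
    rw [hQ] at hQz
    push Not at hQz
    obtain ⟨g1, g2, g3, g4⟩ := hQz
    obtain ⟨z1, z2⟩ := hmemE z hz
    have d1 : (1 - η) * p * W.card ≤ dg G W z.1 := by
      by_contra hlt
      exact g1 ((mem_HL G W p η _).2 ⟨z1, not_le.1 hlt⟩)
    have d2 : (1 - η) * p * W.card ≤ dg G W z.2 := by
      by_contra hlt
      exact g2 ((mem_HL G W p η _).2 ⟨z2, not_le.1 hlt⟩)
    have d3 : (dg G W z.1 : ℝ) ≤ (1 + η) * p * W.card := by
      by_contra hlt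
      exact g3 ((mem_HB G S W p η _).2 ⟨hWS z1, not_le.1 hlt⟩)
    have d4 : (dg G (Hnb G W z.1) z.2 : ℝ) ≤ (1 + η) * p * (Hnb G W z.1).card := by
      by_contra hlt
      exact g4 ⟨g1, g3⟩ ((mem_HB G S _ p η _).2 ⟨hWS z2, not_le.1 hlt⟩)
    rw [Hnb_card] at d4
    rw [Hnb_cdg]
    have d5 : (1 + η) * p * (dg G W z.1 : ℝ) ≤ (1 + η) * p * ((1 + η) * p * W.card) :=
      mul_le_mul_of_nonneg_left d3 (by positivity)
    rw [hb]
    nlinarith
  have htriv : ∀ z : V × V,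
      ∑ v ∈ W, (if ¬ G.Adj v z.1 ∧ ¬ G.Adj v z.2 then (1 : ℝ) else 0) ≤ W.card := by
    intro z
    calc ∑ v ∈ W, (if ¬ G.Adj v z.1 ∧ ¬ G.Adj v z.2 then (1 : ℝ) else 0) ≤ ∑ _v ∈ W, (1 : ℝ) := by
          refine Finset.sum_le_sum fun v _ => ?_
          split_ifs <;> norm_num
      _ = W.card := by simp
  calc ∑ v ∈ W, (DET_F E (DET_W G E W v) : ℝ)
      ≤ ∑ v ∈ W, ∑ z ∈ DET_E E W, (if ¬ G.Adj v z.1 ∧ ¬ G.Adj v z.2 then (1 : ℝ) else 0) :=
        Finset.sum_le_sum h1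
    _ = ∑ z ∈ DET_E E W, ∑ v ∈ W, (if ¬ G.Adj v z.1 ∧ ¬ G.Adj v z.2 then (1 : ℝ) else 0) :=
        Finset.sum_comm
    _ ≤ ∑ z ∈ DET_E E W, (W.card * (1 - b) + (if Q z then W.card * (2 * p) else 0)) := by
        refine Finset.sum_le_sum fun z hz => ?_
        by_cases hQz : Q z
        · rw [if_pos hQz]
          refine (htriv z).trans ?_
          have := mul_le_mul_of_nonneg_left hb2 hW0
          linarith
        · rw [if_neg hQz, add_zero]
          exact hgood z hz hQz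
    _ = W.card * ((DET_F E W : ℝ) * (1 - b)) +
          ((DET_E E W).filter Q).card * (W.card * (2 * p)) := by
        rw [Finset.sum_add_distrib, Finset.sum_const, nsmul_eq_mul, ← Finset.sum_filter,
          Finset.sum_const, nsmul_eq_mul]
        unfold DET_F
        ring
    _ ≤ W.card * ((DET_F E W : ℝ) * (1 - b)) + X * (W.card * (2 * p)) := by
        have := mul_le_mul_of_nonneg_right hbad (show 0 ≤ (W.card : ℝ) * (2 * p) by positivity)
        linarith
    _ = W.card * ((DET_F E W : ℝ) * (1 - b) + 2 * p * X) := by ring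

end Pool.Agent.LGG
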