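import Pool.Agent.LGG.Defs

set_option autoImplicit false

/-!
# MP_5b54e3_co, general sizes: the numerical conditions
-/

namespace Pool.Agent.LGG

open Finset Pool.Agent.LGC

/-- the basic inequalities; `N = k q ^ 16`, `l = log (N / k)` -/
structure Par (c B q l k N : ℝ) : Prop where
  c0 : 0 < c
  c1 : c ≤ 1 / 128
  cB : c * B ≤ 1 / 10
  hl : l = 16 * Real.log q
  hq : 1000 ≤ q
  hlq : l ^ 2 ≤ q
  hcq : 1 ≤ c * q
  hk : 1 ≤ k
  hN : N = k * q ^ 16
  hlk : l ≤ B * k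

namespace Par

variable {c B q l k N : ℝ} (P : Par c B q l k N)
include P

theorem q0 : 0 < q := by linarith [P.hq]

theorem q1 : 1 ≤ q := by linarith [P.hq]

theorem k0 : 0 < k := by linarith [P.hk]

theorem l96 : 96 ≤ l := by
  have h1 : (6 : ℝ) ≤ Real.log q := by
    rw [Real.le_log_iff_exp_le P.q0]
    have h2 : Real.exp 6 = Real.exp 1 ^ 6 := by
      rw [← Real.exp_nat_mul]
      norm_num
    have h3 := Real.exp_one_lt_d9
    have h4 : Real.exp 1 ^ 6 ≤ (2.7182818286 : ℝ) ^ 6 :=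
      pow_le_pow_left₀ (Real.exp_pos 1).le h3.le 6
    have h5 : ((2.7182818286 : ℝ)) ^ 6 ≤ 1000 := by norm_num
    rw [h2]
    linarith [P.hq]
  rw [P.hl]
  linarith

theorem l0 : 0 < l := by linarith [P.l96]

theorem lq : l ≤ q := by
  have := P.hlq
  have := P.l96
  nlinarith

theorem p0 : 0 < c * l / k := by
  have := P.c0
  have := P.l0
  have := P.k0
  positivity

theorem p1 : c * l / k ≤ 1 / 10 := by
  rw [div_le_div_iff₀ P.k0 (by norm_num)]
  have h1 : c * l ≤ c * (B * k) := mul_le_mul_of_nonneg_left P.hlk P.c0.le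
  have h2 : c * (B * k) = c * B * k := by ring
  have h3 : c * B * k ≤ 1 / 10 * k := mul_le_mul_of_nonneg_right P.cB P.k0.le
  linarith

theorem e0 : 0 < 1 / l := by
  have := P.l0
  positivity

theorem e1 : 1 / l ≤ 1 / 4 := one_div_le_one_div_of_le (by norm_num) (by linarith [P.l96])

theorem pk : c * l / k * k = c * l := div_mul_cancel₀ _ P.k0.ne'

theorem hk10 : 10 * (1 / l) * (c * l / k) * k ≤ 1 := by
  have h1 : 10 * (1 / l) * (c * l / k) * k = 10 * c := by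
    have := P.l0.ne'
    have := P.k0.ne'
    field_simp
  rw [h1]
  linarith [P.c1]

theorem w1 : 1 ≤ k * q ^ 15 := by
  have h1 : (1 : ℝ) ≤ q ^ 15 := one_le_pow₀ P.q1
  nlinarith [P.hk]

/-- `z = q^(-1/2)` -/
theorem z_sq : Real.exp (-(l / 32)) ^ 2 * q = 1 := by
  have h1 : Real.exp (-(l / 32)) ^ 2 = Real.exp (-(l / 16)) := by
    rw [← Real.exp_nat_mul]
    congr 1
    push_cast
    ring
  have h2 : q = Real.exp (l / 16) := by
    rw [P.hl]
    have : 16 * Real.log q / 16 = Real.log q := by ring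
    rw [this, Real.exp_log P.q0]
  rw [h1]
  calc Real.exp (-(l / 16)) * q = Real.exp (-(l / 16)) * Real.exp (l / 16) := by rw [← h2]
    _ = Real.exp (-(l / 16) + l / 16) := (Real.exp_add _ _).symm
    _ = 1 := by
        have : -(l / 16) + l / 16 = 0 := by ring
        rw [this, Real.exp_zero]

theorem pow_low (n : ℕ) (hn : (n : ℝ) = k) :
    Real.exp (-(l / 32)) ≤ (1 - (1 + 1 / l) * (c * l / k)) ^ n := by
  obtain ⟨x, hx⟩ : ∃ x, x = (1 + 1 / l) * (c * l / k) := ⟨_, rfl⟩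
  have hx0 : 0 ≤ x := by
    rw [hx]
    have := P.e0
    have := P.p0
    positivity
  have hx1 : x ≤ 1 / 4 := by
    rw [hx]
    have h1 := P.e1
    have h2 := P.p1
    have h3 := P.e0
    have h4 := P.p0
    nlinarith
  have h1 : Real.exp (-(2 * x)) ≤ 1 - x := by
    have h2 : Real.exp (2 * x) * (1 - x) ≥ 1 := by
      have h3 := Real.add_one_le_exp (2 * x)
      have h4 : (2 * x + 1) * (1 - x) ≤ Real.exp (2 * x) * (1 - x) :=
        mul_le_mul_of_nonneg_right h3 (by linarith)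
      nlinarith
    rw [Real.exp_neg, inv_eq_one_div, div_le_iff₀ (Real.exp_pos _)]
    linarith
  rw [← hx]
  refine le_trans ?_ (pow_le_pow_left₀ (Real.exp_pos _).le h1 n)
  rw [← Real.exp_nat_mul]
  refine Real.exp_le_exp.2 ?_
  have h5 : (n : ℝ) * -(2 * x) = -(2 * (1 + 1 / l) * (c * l / k * k)) := by
    rw [hx, hn]; ring
  rw [h5, P.pk]
  have h6 : 2 * (1 + 1 / l) * (c * l) ≤ l / 32 := by
    have h7 := P.e1
    have h8 := P.c1
    have h9 := P.l0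
    have h10 : c * l ≤ 1 / 128 * l := mul_le_mul_of_nonneg_right h8 h9.le
    have h11 : 0 ≤ c * l := by have := P.c0; positivity
    nlinarith
  linarith

theorem w2 (n : ℕ) (hn : (n : ℝ) = k) :
    k * q ^ 15 ≤ N / 4 * (1 - (1 + 1 / l) * (c * l / k)) ^ n := by
  have h1 := P.pow_low n hn
  have h2 := P.z_sq
  have hz := Real.exp_pos (-(l / 32))
  set z := Real.exp (-(l / 32)) with hzdef
  have h3 : 4 ≤ q * z := by
    have h4 : (q * z) ^ 2 = q := by
      calc (q * z) ^ 2 = (z ^ 2 * q) * q := by ring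
        _ = q := by rw [h2, one_mul]
    have h5 : 0 < q * z := mul_pos P.q0 hz
    by_contra hlt
    rw [not_le] at hlt
    have : (q * z) ^ 2 < 4 ^ 2 := pow_lt_pow_left₀ hlt h5.le (by norm_num)
    rw [h4] at this
    linarith [P.hq]
  have hk0 := P.k0
  have hq0 := P.q0
  calc k * q ^ 15 ≤ k * q ^ 15 * (q * z / 4) := by
        have : 1 ≤ q * z / 4 := by linarith
        nlinarith [show 0 < k * q ^ 15 by positivity]
    _ = N / 4 * z := by rw [P.hN]; ring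
    _ ≤ N / 4 * (1 - (1 + 1 / l) * (c * l / k)) ^ n := by
        refine mul_le_mul_of_nonneg_left h1 ?_
        rw [P.hN]
        positivity

theorem N0 : 0 < N := by
  rw [P.hN]
  have := P.k0
  have := P.q0
  positivity

theorem hD (h : ℕ) (hh : 256 * k * h ≤ N ^ 2) : 16 * (h : ℝ) ≤ q ^ 16 * N := by
  have hk0 := P.k0
  have hN0 := P.N0
  have h1 : 256 * k * h ≤ k * q ^ 16 * N := by
    calc 256 * k * h ≤ N ^ 2 := hh
      _ = N * N := sq N
      _ = k * q ^ 16 * N := by rw [← P.hN]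
  have h2 : k * (256 * (h : ℝ)) ≤ k * (q ^ 16 * N) := by
    calc k * (256 * (h : ℝ)) = 256 * k * h := by ring
      _ ≤ k * q ^ 16 * N := h1
      _ = k * (q ^ 16 * N) := by ring
  have h3 := le_of_mul_le_mul_left h2 hk0
  have h4 : (0 : ℝ) ≤ h := Nat.cast_nonneg h
  linarith

theorem fin (n : ℕ) (hn : (n : ℝ) = k) :
    k * (1 + 32 * (k / N) * Real.exp (2 * (c * l / k) * k) * (c * l / k) * (4 * k * q ^ 29)) ≤
      N / 2 * (1 - (1 + 1 / l) * (c * l / k)) ^ n := by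
  have h1 := P.pow_low n hn
  have h2 := P.z_sq
  have hz := Real.exp_pos (-(l / 32))
  have hz1 : Real.exp (-(l / 32)) ≤ 1 := by
    rw [Real.exp_le_one_iff]
    linarith [P.l0]
  have hez : Real.exp (2 * (c * l / k) * k) * Real.exp (-(l / 32)) ≤ 1 := by
    rw [← Real.exp_add, Real.exp_le_one_iff]
    have h3 : 2 * (c * l / k) * k = 2 * (c * l) := by
      rw [mul_assoc, P.pk]
    rw [h3]
    have h10 : c * l ≤ 1 / 128 * l := mul_le_mul_of_nonneg_right P.c1 P.l0.le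
    linarith [P.l0]
  set z := Real.exp (-(l / 32)) with hzdef
  set e := Real.exp (2 * (c * l / k) * k) with hedef
  have he0 : 0 < e := Real.exp_pos _
  have hk0 := P.k0
  have hq0 := P.q0
  have hq1 := P.q1
  have hl0 := P.l0
  have hc0 := P.c0
  have hlq := P.lq
  have hq := P.hq
  have e1 : k * (1 + 32 * (k / N) * e * (c * l / k) * (4 * k * q ^ 29)) =
      k * (1 + 128 * c * l * q ^ 13 * e) := by
    rw [P.hN]
    field_simp
    ring
  rw [e1]
  have e2 : N / 2 * z ≤ N / 2 * (1 - (1 + 1 / l) * (c * l / k)) ^ n :=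
    mul_le_mul_of_nonneg_left h1 (by linarith [P.N0])
  refine le_trans ?_ e2
  have e3 : N / 2 * z = k * (q ^ 16 / 2 * z) := by rw [P.hN]; ring
  rw [e3]
  refine mul_le_mul_of_nonneg_left ?_ hk0.le
  have e4 : 128 * c * l * q ^ 13 * e ≤ l * q ^ 13 * e := by
    have : 128 * c ≤ 1 := by linarith [P.c1]
    have h5 : 0 ≤ l * q ^ 13 * e := by positivity
    nlinarith
  -- multiply by z
  have e5 : (1 + l * q ^ 13 * e) * z ≤ (q ^ 16 / 2 * z) * z := by
    have h6 : (1 + l * q ^ 13 * e) * z = z + l * q ^ 13 * (e * z) := by ring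
    have h7 : l * q ^ 13 * (e * z) ≤ q * q ^ 13 * 1 := by
      have : l * q ^ 13 ≤ q * q ^ 13 := mul_le_mul_of_nonneg_right hlq (by positivity)
      exact mul_le_mul this hez (by positivity) (by positivity)
    have h8 : (q ^ 16 / 2 * z) * z = q ^ 15 / 2 := by
      calc (q ^ 16 / 2 * z) * z = q ^ 15 / 2 * (z ^ 2 * q) := by ring
        _ = q ^ 15 / 2 := by rw [h2, mul_one]
    rw [h6, h8]
    have h9 : (1 : ℝ) ≤ q ^ 14 := one_le_pow₀ hq1
    have h10 : q ^ 15 = q * q ^ 14 := by ring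
    have h11 : q * q ^ 13 * 1 = q ^ 14 := by ring
    rw [h11] at h7
    rw [h10]
    nlinarith
  have e6 := le_of_mul_le_mul_right e5 hz
  linarith

theorem u1c : N + 4 ≤ (1 / l) ^ 2 * (c * l / k) * (k * q ^ 15) ^ 2 / 8 := by
  have hk0 := P.k0
  have hq0 := P.q0
  have hq1 := P.q1
  have hl0 := P.l0
  have hlq := P.lq
  have hq := P.hq
  have hk := P.hk
  have hcq := P.hcq
  have e1 : (1 / l) ^ 2 * (c * l / k) * (k * q ^ 15) ^ 2 / 8 = (c * q) * (k * q ^ 28) * (q / l) / 8 := by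
    field_simp
  rw [e1]
  have h1 : 1 ≤ q / l := by rwa [one_le_div hl0]
  have h2 : 0 ≤ k * q ^ 28 := by positivity
  have h3 : k * q ^ 28 ≤ (c * q) * (k * q ^ 28) := by nlinarith
  have h4 : k * q ^ 28 ≤ (c * q) * (k * q ^ 28) * (q / l) := by
    have : 0 ≤ (c * q) * (k * q ^ 28) := by linarith
    nlinarith
  have h5 : N + 4 ≤ k * q ^ 28 / 8 := by
    rw [P.hN]
    have h6 : q ^ 28 = q ^ 16 * q ^ 12 := by ring
    have h7 : (1000 : ℝ) ≤ q ^ 12 := le_trans hq (le_self_pow₀ hq1 (by norm_num))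
    have h8 : (1 : ℝ) ≤ q ^ 16 := one_le_pow₀ hq1
    have h9 : 1 ≤ k * q ^ 16 := by nlinarith
    rw [h6]
    nlinarith
  linarith

theorem u2a : k * q ^ 13 + 1 ≤ 1 / l * (k * q ^ 15) / 2 := by
  have hk0 := P.k0
  have hq0 := P.q0
  have hq1 := P.q1
  have hl0 := P.l0
  have hlq := P.lq
  have hq := P.hq
  have hk := P.hk
  have e1 : 1 / l * (k * q ^ 15) / 2 = k * q ^ 14 * (q / l) / 2 := by
    field_simp
  rw [e1]
  have h1 : 1 ≤ q / l := by rwa [one_le_div hl0]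
  have h2 : 0 ≤ k * q ^ 14 := by positivity
  have h3 : k * q ^ 14 ≤ k * q ^ 14 * (q / l) := by nlinarith
  have h4 : k * q ^ 14 = (k * q ^ 13) * q := by ring
  have h5 : 1 ≤ k * q ^ 13 := by
    have : (1 : ℝ) ≤ q ^ 13 := one_le_pow₀ hq1
    nlinarith
  nlinarith

theorem u2c : 2 * N + 4 ≤ (1 / l) ^ 2 * (c * l / k) * (k * q ^ 13) / 16 * (k * q ^ 15) := by
  have hk0 := P.k0
  have hq0 := P.q0
  have hq1 := P.q1
  have hl0 := P.l0
  have hlq := P.lq
  have hq := P.hq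
  have hk := P.hk
  have hcq := P.hcq
  have e1 : (1 / l) ^ 2 * (c * l / k) * (k * q ^ 13) / 16 * (k * q ^ 15) =
      (c * q) * (k * q ^ 26) * (q / l) / 16 := by
    field_simp
  rw [e1]
  have h1 : 1 ≤ q / l := by rwa [one_le_div hl0]
  have h2 : 0 ≤ k * q ^ 26 := by positivity
  have h3 : k * q ^ 26 ≤ (c * q) * (k * q ^ 26) := by nlinarith
  have h4 : k * q ^ 26 ≤ (c * q) * (k * q ^ 26) * (q / l) := by
    have : 0 ≤ (c * q) * (k * q ^ 26) := by linarith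
    nlinarith
  have h5 : 2 * N + 4 ≤ k * q ^ 26 / 16 := by
    rw [P.hN]
    have h6 : q ^ 26 = q ^ 16 * q ^ 10 := by ring
    have h7 : (1000 : ℝ) ≤ q ^ 10 := le_trans hq (le_self_pow₀ hq1 (by norm_num))
    have h8 : (1 : ℝ) ≤ q ^ 16 := one_le_pow₀ hq1
    have h9 : 1 ≤ k * q ^ 16 := by nlinarith
    rw [h6]
    nlinarith
  linarith

/-! ### first range: `q ^ 4 ≤ k` -/

theorem kap : q ^ 14 ≤ 1 / l * (c * l / k) * (k * q ^ 15) := by
  have hk0 := P.k0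
  have hl0 := P.l0
  have hq0 := P.q0
  have e1 : 1 / l * (c * l / k) * (k * q ^ 15) = (c * q) * q ^ 14 := by
    field_simp
  rw [e1]
  have h : 0 ≤ q ^ 14 := by positivity
  nlinarith [P.hcq]

theorem u3c (hkq : q ^ 4 ≤ k) (m : ℕ) (hm : q ^ 14 ≤ m) :
    12 * (N * N * (3 * (N * (c * l / k) ^ 2) / m) ^ m) ≤ 1 := by
  have hk0 := P.k0
  have hq0 := P.q0
  have hq1 := P.q1
  have hl0 := P.l0
  have hq := P.hq
  have hc0 := P.c0
  have hc1 := P.c1
  have hlq := P.hlq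
  have hm0 : (0 : ℝ) < m := lt_of_lt_of_le (by positivity) hm
  have hm48 : 48 ≤ m := by
    have h1 : (1000 : ℝ) ≤ q ^ 14 := le_trans hq (le_self_pow₀ hq1 (by norm_num))
    have h2 : (48 : ℝ) ≤ m := by linarith
    exact_mod_cast h2
  obtain ⟨y, hy⟩ : ∃ y : ℝ, y = 3 * (N * (c * l / k) ^ 2) / m := ⟨_, rfl⟩
  rw [← hy]
  have hN0 := P.N0
  have hy0 : 0 ≤ y := by rw [hy]; positivity
  have hyle : y ≤ q ^ 3 / k := by
    rw [hy, div_le_iff₀ hm0]
    have h1 : 3 * (N * (c * l / k) ^ 2) = q ^ 16 / k * (3 * c ^ 2 * l ^ 2) := by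
      rw [P.hN]
      field_simp
    have h2 : 3 * c ^ 2 * l ^ 2 ≤ q := by
      have : 3 * c ^ 2 ≤ 1 := by nlinarith
      have h3 : 0 ≤ l ^ 2 := by positivity
      nlinarith
    rw [h1]
    calc q ^ 16 / k * (3 * c ^ 2 * l ^ 2) ≤ q ^ 16 / k * q :=
          mul_le_mul_of_nonneg_left h2 (by positivity)
      _ = q ^ 3 / k * q ^ 14 := by ring
      _ ≤ q ^ 3 / k * m := mul_le_mul_of_nonneg_left hm (by positivity)
  have hy4 : y ^ 4 ≤ 1 / k := by
    calc y ^ 4 ≤ (q ^ 3 / k) ^ 4 := pow_le_pow_left₀ hy0 hyle 4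
      _ = (q ^ 4) ^ 3 / k ^ 4 := by rw [div_pow]; ring
      _ ≤ k ^ 3 / k ^ 4 := by
          refine div_le_div_of_nonneg_right ?_ (by positivity)
          exact pow_le_pow_left₀ (by positivity) hkq 3
      _ = 1 / k := by field_simp
  have hk1 : 1 / k ≤ 1 := by
    rw [div_le_one hk0]
    exact P.hk
  have hy1 : y ≤ 1 := by
    by_contra h
    rw [not_le] at h
    have : 1 < y ^ 4 := one_lt_pow₀ h (by norm_num)
    linarith
  have hym : y ^ m ≤ 1 / k ^ 12 := by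
    calc y ^ m ≤ y ^ 48 := pow_le_pow_of_le_one hy0 hy1 hm48
      _ = (y ^ 4) ^ 12 := by ring
      _ ≤ (1 / k) ^ 12 := pow_le_pow_left₀ (by positivity) hy4 12
      _ = 1 / k ^ 12 := by rw [div_pow, one_pow]
  have hNk : N ≤ k ^ 5 := by
    rw [P.hN]
    calc k * q ^ 16 = k * (q ^ 4) ^ 4 := by ring
      _ ≤ k * k ^ 4 := by
          refine mul_le_mul_of_nonneg_left ?_ hk0.le
          exact pow_le_pow_left₀ (by positivity) hkq 4
      _ = k ^ 5 := by ring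
  have hNN : N * N ≤ k ^ 10 := by
    calc N * N ≤ k ^ 5 * k ^ 5 := mul_le_mul hNk hNk hN0.le (by positivity)
      _ = k ^ 10 := by ring
  have hkbig : 1000 ≤ k := by
    have h1 : q ≤ q ^ 4 := le_self_pow₀ hq1 (by norm_num)
    linarith
  calc 12 * (N * N * y ^ m) ≤ 12 * (k ^ 10 * (1 / k ^ 12)) := by
        refine mul_le_mul_of_nonneg_left ?_ (by norm_num)
        exact mul_le_mul hNN hym (pow_nonneg hy0 _) (by positivity)
    _ = 12 / k ^ 2 := by field_simp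
    _ ≤ 1 := by
        rw [div_le_one (by positivity)]
        nlinarith

theorem x_a : k * q ^ 13 * q ^ 16 ≤ 4 * k * q ^ 29 := by
  have hk0 := P.k0
  have hq0 := P.q0
  have : k * q ^ 13 * q ^ 16 = k * q ^ 29 := by ring
  rw [this]
  have : 0 ≤ k * q ^ 29 := by positivity
  linarith

theorem b_a : (2 - 3 * (1 / l)) * (c * l / k) ≤ 1 / 2 ∧
    (2 - 3 * (1 / l)) * (c * l / k) - (1 + 1 / l) * (c * l / k) ≤ c * l / k ∧
    (1 - 5 * (1 / l * (c * l / k))) * (1 - (2 - 3 * (1 / l)) * (c * l / k)) ≤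
      (1 - (1 + 1 / l) * (c * l / k)) ^ 2 := by
  have h1 := P.p0
  have h2 := P.p1
  have h3 := P.e0
  have h4 := P.e1
  obtain ⟨p, hp⟩ : ∃ p, p = c * l / k := ⟨_, rfl⟩
  obtain ⟨η, hη⟩ : ∃ η, η = 1 / l := ⟨_, rfl⟩
  rw [← hp] at h1 h2 ⊢
  rw [← hη] at h3 h4 ⊢
  have h5 : 0 < η * p := mul_pos h3 h1
  refine ⟨by nlinarith, by nlinarith, ?_⟩
  nlinarith [sq_nonneg ((1 + η) * p - (2 - 3 * η) * p)]

/-! ### second range: `k < q ^ 4` -/

theorem b_b : 2 * (1 - 1 / l) * (c * l / k) - (1 + 1 / l) ^ 2 * (c * l / k) ^ 2 ≤ 1 / 2 ∧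
    2 * (1 - 1 / l) * (c * l / k) - (1 + 1 / l) ^ 2 * (c * l / k) ^ 2 -
      (1 + 1 / l) * (c * l / k) ≤ c * l / k ∧
    (1 - 5 * (1 / l * (c * l / k))) *
      (1 - (2 * (1 - 1 / l) * (c * l / k) - (1 + 1 / l) ^ 2 * (c * l / k) ^ 2)) ≤
      (1 - (1 + 1 / l) * (c * l / k)) ^ 2 := by
  have h1 := P.p0
  have h2 := P.p1
  have h3 := P.e0
  have h4 := P.e1
  obtain ⟨p, hp⟩ : ∃ p, p = c * l / k := ⟨_, rfl⟩
  obtain ⟨η, hη⟩ : ∃ η, η = 1 / l := ⟨_, rfl⟩
  rw [← hp] at h1 h2 ⊢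
  rw [← hη] at h3 h4 ⊢
  have h5 : 0 < η * p := mul_pos h3 h1
  obtain ⟨g, hg⟩ : ∃ g, g = (1 + η) ^ 2 * p ^ 2 := ⟨_, rfl⟩
  have hg0 : 0 ≤ g := by rw [hg]; positivity
  rw [← hg]
  refine ⟨by nlinarith, by nlinarith, ?_⟩
  have h6 : (1 - (1 + η) * p) ^ 2 = 1 - 2 * (1 + η) * p + g := by rw [hg]; ring
  rw [h6]
  have h7 : 4 / 5 ≤ 1 - (2 * (1 - η) * p - g) := by nlinarith
  have h8 : 4 * (η * p) ≤ 5 * (η * p) * (1 - (2 * (1 - η) * p - g)) := by nlinarith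
  linarith

theorem w_b : c * l / k * (k * q ^ 15) / 2 ≤ (1 - 1 / l) * (c * l / k) * (k * q ^ 15) ∧
    c * l / k * (k * q ^ 15) / 2 ≤ k * q ^ 15 := by
  have h1 := P.p0
  have h2 := P.p1
  have h3 := P.e0
  have h4 := P.e1
  have h5 := P.w1
  have h6 : 0 < c * l / k * (k * q ^ 15) := by positivity
  constructor
  · nlinarith
  · nlinarith

theorem x_b : 2 * (k * q ^ 13) * q ^ 16 + q ^ 8 * q ^ 16 + N * q ^ 8 ≤ 4 * k * q ^ 29 := by
  have hk0 := P.k0
  have hq0 := P.q0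
  have hq1 := P.q1
  have hk := P.hk
  rw [P.hN]
  have h1 : q ^ 24 ≤ q ^ 29 := pow_le_pow_right₀ hq1 (by norm_num)
  have h2 : q ^ 24 ≤ k * q ^ 29 := by
    have : 0 ≤ q ^ 29 := by positivity
    nlinarith
  have h3 : k * q ^ 24 ≤ k * q ^ 29 := mul_le_mul_of_nonneg_left h1 hk0.le
  have e1 : 2 * (k * q ^ 13) * q ^ 16 + q ^ 8 * q ^ 16 + k * q ^ 16 * q ^ 8 =
      2 * (k * q ^ 29) + q ^ 24 + k * q ^ 24 := by ring
  rw [e1]
  linarith

theorem w1_eq : c * l / k * (k * q ^ 15) / 2 = c * l * q ^ 15 / 2 := by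
  have hk0 := P.k0
  field_simp

theorem cc : 1 ≤ c ^ 2 * q ^ 2 := by
  have h := P.hcq
  have : c ^ 2 * q ^ 2 = (c * q) ^ 2 := by ring
  rw [this]
  exact one_le_pow₀ h

theorem x1_b (hkq : k < q ^ 4) :
    q ^ 8 + 1 ≤ 1 / l * (c * l / k) * (c * l / k * (k * q ^ 15) / 2) / 2 := by
  have hk0 := P.k0
  have hq0 := P.q0
  have hq1 := P.q1
  have hq := P.hq
  have hl0 := P.l0
  have hc0 := P.c0
  have hl := P.l96
  have e1 : 1 / l * (c * l / k) * (c * l / k * (k * q ^ 15) / 2) / 2 =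
      (c ^ 2 * q ^ 2) * l * q ^ 9 * (q ^ 4 / k) / 4 := by
    rw [P.w1_eq]
    field_simp
    ring
  rw [e1]
  have h1 : 1 ≤ q ^ 4 / k := by
    rw [one_le_div hk0]
    exact hkq.le
  have h2 := P.cc
  have h3 : 0 ≤ l * q ^ 9 := by positivity
  have h4 : l * q ^ 9 ≤ (c ^ 2 * q ^ 2) * (l * q ^ 9) := by nlinarith
  have h5 : (c ^ 2 * q ^ 2) * (l * q ^ 9) ≤ (c ^ 2 * q ^ 2) * (l * q ^ 9) * (q ^ 4 / k) := by
    have : 0 ≤ (c ^ 2 * q ^ 2) * (l * q ^ 9) := by linarith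
    nlinarith
  have h6 : q ^ 8 + 1 ≤ l * q ^ 9 / 4 := by
    have h7 : (1 : ℝ) ≤ q ^ 8 := one_le_pow₀ hq1
    have h8 : q ^ 9 = q * q ^ 8 := by ring
    have h9 : 2 * q ^ 8 ≤ q ^ 9 := by rw [h8]; nlinarith
    have h10 : 0 ≤ q ^ 9 := by positivity
    nlinarith
  have h11 : (c ^ 2 * q ^ 2) * l * q ^ 9 * (q ^ 4 / k) / 4 =
      (c ^ 2 * q ^ 2) * (l * q ^ 9) * (q ^ 4 / k) / 4 := by ring
  rw [h11]
  linarith

theorem logN (hkq : k < q ^ 4) : Real.log N ≤ 2 * l := by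
  have hk0 := P.k0
  have hq0 := P.q0
  have h1 : N ≤ q ^ 20 := by
    rw [P.hN]
    calc k * q ^ 16 ≤ q ^ 4 * q ^ 16 := mul_le_mul_of_nonneg_right hkq.le (by positivity)
      _ = q ^ 20 := by ring
  have h2 := Real.log_le_log P.N0 h1
  rw [Real.log_pow] at h2
  push_cast at h2
  have h3 := P.hl
  have h4 := P.l0
  linarith

theorem logc_b (hkq : k < q ^ 4) :
    32 * Real.log N ≤ (1 / l) ^ 2 * (c * l / k) * (c * l / k * (k * q ^ 15) / 2) := by
  have hk0 := P.k0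
  have hq0 := P.q0
  have hq1 := P.q1
  have hq := P.hq
  have hl0 := P.l0
  have hlq := P.lq
  have e1 : (1 / l) ^ 2 * (c * l / k) * (c * l / k * (k * q ^ 15) / 2) =
      (c ^ 2 * q ^ 2) * q ^ 9 * (q ^ 4 / k) / 2 := by
    rw [P.w1_eq]
    field_simp
  rw [e1]
  have h0 := P.logN hkq
  have h1 : 1 ≤ q ^ 4 / k := by
    rw [one_le_div hk0]
    exact hkq.le
  have h2 := P.cc
  have h3 : 0 ≤ q ^ 9 := by positivity
  have h4 : q ^ 9 ≤ (c ^ 2 * q ^ 2) * q ^ 9 := by nlinarith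
  have h5 : (c ^ 2 * q ^ 2) * q ^ 9 ≤ (c ^ 2 * q ^ 2) * q ^ 9 * (q ^ 4 / k) := by
    have : 0 ≤ (c ^ 2 * q ^ 2) * q ^ 9 := by linarith
    nlinarith
  have h6 : 128 * q ≤ q ^ 9 := by
    have h7 : (1000 : ℝ) ≤ q ^ 8 := le_trans hq (le_self_pow₀ hq1 (by norm_num))
    have h8 : q ^ 9 = q * q ^ 8 := by ring
    rw [h8]
    nlinarith
  linarith

theorem exp_b (hkq : k < q ^ 4) :
    24 * N ≤ Real.exp ((1 / l) ^ 2 * (c * l / k) * q ^ 8 / 32) := by
  have hk0 := P.k0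
  have hq0 := P.q0
  have hq1 := P.q1
  have hq := P.hq
  have hl0 := P.l0
  have hlq := P.lq
  have hN0 := P.N0
  have e1 : (1 / l) ^ 2 * (c * l / k) * q ^ 8 / 32 =
      (c * q) * (q / l) * q ^ 2 * (q ^ 4 / k) / 32 := by
    field_simp
  rw [e1]
  have h0 := P.logN hkq
  have h1 : 1 ≤ q ^ 4 / k := by
    rw [one_le_div hk0]
    exact hkq.le
  have h2 := P.hcq
  have h3 : 1 ≤ q / l := by rwa [one_le_div hl0]
  have h4 : q ^ 2 ≤ (c * q) * (q / l) * q ^ 2 * (q ^ 4 / k) := by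
    have g1 : 1 ≤ (c * q) * (q / l) := by nlinarith
    have g2 : 0 ≤ q ^ 2 := by positivity
    have g3 : q ^ 2 ≤ (c * q) * (q / l) * q ^ 2 := by nlinarith
    have g4 : 0 ≤ (c * q) * (q / l) * q ^ 2 := by linarith
    nlinarith
  have h5 : Real.log (24 * N) ≤ (c * q) * (q / l) * q ^ 2 * (q ^ 4 / k) / 32 := by
    rw [Real.log_mul (by norm_num) hN0.ne']
    have h6 : Real.log 24 ≤ 23 := by
      have := Real.log_le_sub_one_of_pos (show (0 : ℝ) < 24 by norm_num)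
      linarith
    nlinarith
  calc 24 * N = Real.exp (Real.log (24 * N)) := (Real.exp_log (by positivity)).symm
    _ ≤ _ := Real.exp_le_exp.2 h5

end Par

end Pool.Agent.LGG
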