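import Pool.Agent.LGG.Defs

set_option autoImplicit false

/-!
# MP_5b54e3_co, general sizes: few vertices have too many neighbours in a large set
-/

namespace Pool.Agent.LGG

open Finset Pool.Agent.LGC

theorem U4_tt_card {V : Type} (Y W : Finset V) : (U2tt Y W).card ≤ Y.card * W.card := by
  classical
  unfold U2tt
  refine Finset.card_image_le.trans ?_
  rw [Finset.card_product]
  exact Nat.mul_le_mul_left _ (Finset.card_le_card Finset.sdiff_subset)

open Classical in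
/-- the edges between `Y` and `W \ Y` -/
theorem U4_inter {V : Type} (A : Finset (Sym2 V)) (Y W : Finset V) :
    ∑ y ∈ Y, (dg (gr A) W y : ℝ) ≤ ((A ∩ U2tt Y W).card : ℝ) + (Y.card : ℝ) * Y.card := by
  have h1 : ∀ y ∈ Y, (dg (gr A) W y : ℝ) ≤ (dg (gr A) (W \ Y) y : ℝ) + Y.card := by
    intro y _
    have h2 : dg (gr A) W y ≤ dg (gr A) (W \ Y) y + Y.card := by
      unfold dg
      have h3 : W.filter (fun z => (gr A).Adj y z) ⊆
          (W \ Y).filter (fun z => (gr A).Adj y z) ∪ Y := by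
        intro z hz
        rw [Finset.mem_filter] at hz
        rw [Finset.mem_union, Finset.mem_filter, Finset.mem_sdiff]
        by_cases hzY : z ∈ Y
        · exact Or.inr hzY
        · exact Or.inl ⟨⟨hz.1, hzY⟩, hz.2⟩
      exact (Finset.card_le_card h3).trans (Finset.card_union_le _ _)
    exact_mod_cast h2
  have h4 : ∑ y ∈ Y, dg (gr A) (W \ Y) y ≤ (A ∩ U2tt Y W).card := by
    have h5 : ∑ y ∈ Y, dg (gr A) (W \ Y) y =
        (Y.sigma (fun y => (W \ Y).filter (fun z => (gr A).Adj y z))).card := by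
      rw [Finset.card_sigma]
      rfl
    rw [h5]
    refine Finset.card_le_card_of_injOn
      (fun z : (Σ _ : V, V) => (s(z.1, z.2) : Sym2 V)) ?_ ?_
    · rintro ⟨y, z⟩ hz
      rw [Finset.mem_coe, Finset.mem_sigma, Finset.mem_filter] at hz
      rw [Finset.mem_coe, Finset.mem_inter]
      refine ⟨((gr_adj A y z).1 hz.2.2).1, ?_⟩
      unfold U2tt
      rw [Finset.mem_image]
      exact ⟨(y, z), Finset.mem_product.2 ⟨hz.1, hz.2.1⟩, rfl⟩
    · rintro ⟨y, z⟩ hz ⟨y', z'⟩ hz' h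
      rw [Finset.mem_coe, Finset.mem_sigma, Finset.mem_filter, Finset.mem_sdiff] at hz hz'
      simp only at h hz hz'
      rcases Sym2.eq_iff.1 h with ⟨h6, h7⟩ | ⟨h6, h7⟩
      · rw [h6, h7]
      · exact absurd hz.1 (h6 ▸ hz'.2.1.2)
  have h6 : ∑ y ∈ Y, (dg (gr A) (W \ Y) y : ℝ) ≤ ((A ∩ U2tt Y W).card : ℝ) := by
    exact_mod_cast h4
  calc ∑ y ∈ Y, (dg (gr A) W y : ℝ) ≤ ∑ y ∈ Y, ((dg (gr A) (W \ Y) y : ℝ) + Y.card) :=
        Finset.sum_le_sum h1
    _ = ∑ y ∈ Y, (dg (gr A) (W \ Y) y : ℝ) + (Y.card : ℝ) * Y.card := by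
        rw [Finset.sum_add_distrib, Finset.sum_const, nsmul_eq_mul]
    _ ≤ _ := by linarith

/-- one pair -/
theorem U4_one (hCH : S_CH) {V : Type} [Fintype V] (p η : ℝ) (hp0 : 0 ≤ p) (hp1 : p ≤ 1)
    (hη0 : 0 ≤ η) (hη1 : η ≤ 1) (Y W : Finset V)
    (hY : (Y.card : ℝ) ≤ η * p * W.card / 2) :
    Pr p (fun A : Finset (Sym2 V) => ∀ y ∈ Y, (1 + η) * p * W.card < (dg (gr A) W y : ℝ)) ≤
      Real.exp (-(η ^ 2 * p * Y.card / 16 * W.card)) := by
  classical
  obtain ⟨-, -, h3, -⟩ := hCH (Sym2 V) p hp0 hp1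
  have hw0 : (0 : ℝ) ≤ W.card := Nat.cast_nonneg _
  have hy0 : (0 : ℝ) ≤ Y.card := Nat.cast_nonneg _
  have h5 := h3 (U2tt Y W) (p * W.card * Y.card) (η / 2) (by linarith) (by linarith) (by
    have h6 : ((U2tt Y W).card : ℝ) ≤ Y.card * W.card := by exact_mod_cast U4_tt_card Y W
    have := mul_le_mul_of_nonneg_left h6 hp0
    linarith)
  refine (Pr_mono hp0 hp1 ?_).trans (h5.trans ?_)
  · intro A hA
    have h6 := U4_inter A Y W
    have h7 : ∑ y ∈ Y, ((1 + η) * p * W.card) ≤ ∑ y ∈ Y, (dg (gr A) W y : ℝ) :=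
      Finset.sum_le_sum fun y hy => (hA y hy).le
    rw [Finset.sum_const, nsmul_eq_mul] at h7
    have h8 : (Y.card : ℝ) * Y.card ≤ Y.card * (η * p * W.card / 2) :=
      mul_le_mul_of_nonneg_left hY hy0
    nlinarith
  · apply Real.exp_le_exp.2
    have : (η / 2) ^ 2 * (p * W.card * Y.card) / 4 = η ^ 2 * p * Y.card / 16 * W.card := by ring
    rw [this]

/-- the union bound -/
theorem u4 (hCH : S_CH) {V : Type} [Fintype V] (S : Finset V) (p η w₁ x₁ : ℝ)
    (hp0 : 0 ≤ p) (hp1 : p ≤ 1) (hη0 : 0 ≤ η) (hη1 : η ≤ 1) (hx₁ : 0 ≤ x₁) (hw₁ : 0 < w₁)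
    (hxw : x₁ + 1 ≤ η * p * w₁ / 2) (hS : 1 ≤ S.card)
    (hlog : 32 * Real.log S.card ≤ η ^ 2 * p * w₁)
    (hN : 24 * (S.card : ℝ) ≤ Real.exp (η ^ 2 * p * x₁ / 32)) :
    Pr p (fun A : Finset (Sym2 V) => ¬ U4 (gr A) S p η w₁ x₁) ≤ 1 / 12 := by
  classical
  obtain ⟨m, hm⟩ : ∃ m : ℕ, m = ⌊x₁⌋₊ + 1 := ⟨_, rfl⟩
  have hmx : x₁ < (m : ℝ) := by rw [hm]; push_cast; exact Nat.lt_floor_add_one x₁
  have hmx1 : (m : ℝ) ≤ x₁ + 1 := by
    rw [hm]; push_cast
    have := Nat.floor_le hx₁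
    linarith
  have hm0 : (0 : ℝ) ≤ m := Nat.cast_nonneg _
  obtain ⟨c, hc⟩ : ∃ c : ℝ, c = η ^ 2 * p * x₁ / 32 := ⟨_, rfl⟩
  rw [← hc] at hN
  have hSpos : (0 : ℝ) < S.card := by exact_mod_cast hS
  let F : Finset (Finset V × Finset V) :=
    (S.powerset.filter (fun W => w₁ ≤ (W.card : ℝ))) ×ˢ (S.powersetCard m)
  have h1 : Pr p (fun A : Finset (Sym2 V) => ¬ U4 (gr A) S p η w₁ x₁) ≤
      Pr p (fun A : Finset (Sym2 V) => ∃ z ∈ F,
        (fun (z : Finset V × Finset V) (A : Finset (Sym2 V)) =>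
        ∀ y ∈ z.2, (1 + η) * p * z.1.card < (dg (gr A) z.1 y : ℝ)) z A) := by
    refine Pr_mono hp0 hp1 ?_
    intro A hA
    unfold U4 at hA
    push Not at hA
    obtain ⟨W, hWS, hWw, hWx⟩ := hA
    have h2 : m ≤ (S.filter (fun y => (1 + η) * p * W.card < (dg (gr A) W y : ℝ))).card := by
      rw [hm]
      have : ⌊x₁⌋₊ < (S.filter (fun y => (1 + η) * p * W.card < (dg (gr A) W y : ℝ))).card := by
        rw [Nat.floor_lt hx₁]
        exact lt_of_lt_of_eq hWx (congrArg (Nat.cast : ℕ → ℝ) (U2_fc S _ _ _))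
      exact this
    obtain ⟨Y, hY1, hY2⟩ := Finset.exists_subset_card_eq h2
    refine ⟨(W, Y), ?_, ?_⟩
    · simp only [F, Finset.mem_product, Finset.mem_filter, Finset.mem_powerset,
        Finset.mem_powersetCard]
      exact ⟨⟨hWS, hWw⟩, hY1.trans (Finset.filter_subset _ _), hY2⟩
    · intro y hy
      exact (Finset.mem_filter.1 (hY1 hy)).2
  refine h1.trans ((Pr_exists_le hp0 hp1 F _).trans ?_)
  have h2 : ∀ z ∈ F, Pr p (fun A : Finset (Sym2 V) =>
      ∀ y ∈ z.2, (1 + η) * p * z.1.card < (dg (gr A) z.1 y : ℝ)) ≤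
      Real.exp (-(m * Real.log S.card)) * Real.exp (-c) ^ z.1.card := by
    rintro ⟨W, Y⟩ hz
    simp only [F, Finset.mem_product, Finset.mem_filter, Finset.mem_powerset,
      Finset.mem_powersetCard] at hz
    obtain ⟨⟨hWS, hWw⟩, hYS, hYm⟩ := hz
    have hw0 : (0 : ℝ) ≤ W.card := Nat.cast_nonneg _
    have hηp : η * p * w₁ ≤ η * p * W.card := mul_le_mul_of_nonneg_left hWw (by positivity)
    have hηp2 : η ^ 2 * p * w₁ ≤ η ^ 2 * p * W.card :=
      mul_le_mul_of_nonneg_left hWw (by positivity)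
    refine (U4_one hCH p η hp0 hp1 hη0 hη1 Y W ?_).trans ?_
    · rw [hYm]
      linarith
    · rw [← Real.exp_nat_mul, ← Real.exp_add]
      apply Real.exp_le_exp.2
      rw [hYm]
      have e1 : (m : ℝ) * Real.log S.card ≤ m * (η ^ 2 * p * W.card / 32) :=
        mul_le_mul_of_nonneg_left (by linarith) hm0
      have e2 : (W.card : ℝ) * c ≤ W.card * (η ^ 2 * p * m / 32) := by
        refine mul_le_mul_of_nonneg_left ?_ hw0
        rw [hc]
        have : η ^ 2 * p * x₁ ≤ η ^ 2 * p * m := mul_le_mul_of_nonneg_left hmx.le (by positivity)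
        linarith
      have e3 : η ^ 2 * p * m / 16 * W.card =
          m * (η ^ 2 * p * W.card / 32) + W.card * (η ^ 2 * p * m / 32) := by ring
      have e4 : (W.card : ℝ) * -c = -(W.card * c) := by ring
      rw [e3, e4]
      linarith
  refine (Finset.sum_le_sum h2).trans ?_
  have h3 : ∑ z ∈ F, Real.exp (-(m * Real.log S.card)) * Real.exp (-c) ^ z.1.card =
      ((S.card.choose m : ℕ) : ℝ) * Real.exp (-(m * Real.log S.card)) *
      ∑ W ∈ S.powerset.filter (fun W => w₁ ≤ (W.card : ℝ)), Real.exp (-c) ^ W.card := by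
    rw [Finset.sum_product, Finset.mul_sum]
    refine Finset.sum_congr rfl fun W _ => ?_
    have e := Finset.sum_const (s := S.powersetCard m)
      (Real.exp (-(m * Real.log S.card)) * Real.exp (-c) ^ W.card)
    rw [Finset.card_powersetCard, nsmul_eq_mul] at e
    refine Eq.trans e ?_
    ring
  rw [h3]
  have h4 : ((S.card.choose m : ℕ) : ℝ) * Real.exp (-(m * Real.log S.card)) ≤ 1 := by
    have h5 := up_choose_le hS m
    have h6 : Real.exp (m * Real.log S.card) * Real.exp (-(m * Real.log S.card)) = 1 := by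
      rw [← Real.exp_add, add_neg_cancel, Real.exp_zero]
    rw [← h6]
    exact mul_le_mul_of_nonneg_right h5 (Real.exp_pos _).le
  have h5 : ∑ W ∈ S.powerset.filter (fun W => w₁ ≤ (W.card : ℝ)), Real.exp (-c) ^ W.card ≤
      1 / 12 := by
    have g1 : ∑ W ∈ S.powerset.filter (fun W => w₁ ≤ (W.card : ℝ)), Real.exp (-c) ^ W.card ≤
        ∑ W ∈ S.powerset.erase ∅, Real.exp (-c) ^ W.card := by
      apply Finset.sum_le_sum_of_subset_of_nonneg
      · intro W hW
        rw [Finset.mem_filter] at hW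
        rw [Finset.mem_erase]
        refine ⟨?_, hW.1⟩
        rintro rfl
        have := hW.2
        simp at this
        linarith
      · intro _ _ _
        positivity
    refine g1.trans ?_
    have h6 := Finset.sum_pow_mul_eq_add_pow (Real.exp (-c)) 1 S
    have h7 := Finset.add_sum_erase S.powerset (fun W => Real.exp (-c) ^ W.card)
      (Finset.empty_mem_powerset S)
    simp only [one_pow, mul_one] at h6
    rw [h6] at h7
    simp only [Finset.card_empty, pow_zero] at h7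
    have h8 : (Real.exp (-c) + 1) ^ S.card ≤ Real.exp (S.card * Real.exp (-c)) := by
      rw [Real.exp_nat_mul]
      exact pow_le_pow_left₀ (by positivity) (Real.add_one_le_exp _) _
    have h9 : (S.card : ℝ) * Real.exp (-c) ≤ 1 / 24 := by
      rw [Real.exp_neg]
      have he : 0 < Real.exp c := Real.exp_pos c
      rw [← div_eq_mul_inv, div_le_iff₀ he]
      linarith
    have h11 : Real.exp (S.card * Real.exp (-c)) ≤ 13 / 12 := by
      refine (Real.exp_le_exp.2 h9).trans ?_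
      have h12 := Real.exp_bound_div_one_sub_of_interval (x := (1 : ℝ) / 24) (by norm_num)
        (by norm_num)
      refine h12.trans (by norm_num)
    linarith
  have h6 : 0 ≤ ∑ W ∈ S.powerset.filter (fun W => w₁ ≤ (W.card : ℝ)), Real.exp (-c) ^ W.card :=
    Finset.sum_nonneg fun _ _ => by positivity
  calc ((S.card.choose m : ℕ) : ℝ) * Real.exp (-(m * Real.log S.card)) *
        ∑ W ∈ S.powerset.filter (fun W => w₁ ≤ (W.card : ℝ)), Real.exp (-c) ^ W.card
      ≤ 1 * ∑ W ∈ S.powerset.filter (fun W => w₁ ≤ (W.card : ℝ)), Real.exp (-c) ^ W.card :=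
        mul_le_mul_of_nonneg_right h4 h6
    _ ≤ 1 / 12 := by rw [one_mul]; exact h5

end Pool.Agent.LGG
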