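import Pool.Agent.LGG.Det
import Pool.Agent.LGG.H
import Pool.Agent.LGG.U4
import Pool.Agent.LGG.Num
import Pool.Agent.LGD.Wide

set_option autoImplicit false

/-!
# MP_5b54e3_co, general sizes: the probability of a small independence number
-/

namespace Pool.Agent.LGG

open Finset Pool.Agent.LGC Pool.Agent.LGD Filter

/-- from uniformity with probability `3/4` to the bound -/
theorem bad_of {V : Type} [Fintype V] (S : Finset V) (k : ℕ) (p K : ℝ) (hp : 0 < p)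
    (hp1 : p ≤ 1 / 10) (hK : 1 ≤ K) (Q : Finset (Sym2 V) → Prop) (hQ : 3 / 4 ≤ Pr p Q)
    (hdet : ∀ A, Q A → ∀ E : Finset (Sym2 V), E.card ≤ S.card ^ 2 / (256 * k) →
      ∃ I ⊆ S, I.card = k ∧ Ind (gr A) E I) :
    Pr (p / K) (fun A : Finset (Sym2 V) => ¬ ∃ I ⊆ S, I.card = k ∧ Ind (gr A) ∅ I) *
      K ^ (S.card ^ 2 / (256 * k)) ≤ 4 / 3 := by
  classical
  obtain ⟨h, hh⟩ : ∃ h : ℕ, h = S.card ^ 2 / (256 * k) := ⟨_, rfl⟩
  rw [← hh]
  have hKpos : (0 : ℝ) < K := lt_of_lt_of_le one_pos hK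
  have hp0 : 0 < p / K := div_pos hp hKpos
  have hple : p / K ≤ p := div_le_self hp.le hK
  have hp1' : p < 1 := by linarith
  have hp1'' : p / K ≤ 1 := by linarith
  have hiso := iso (Sym2 V) (p / K) p hp0 hple hp1'
    (fun A => ¬ ∃ I ⊆ S, I.card = k ∧ Ind (gr A) ∅ I) (bad_incr S k) h
  have hratio : p / (p / K) = K := by
    field_simp
  rw [hratio] at hiso
  have hU : ∀ A : Finset (Sym2 V), Q A →
      ∀ B, A ⊆ B → B.card ≤ A.card + h → ¬ ¬ ∃ I ⊆ S, I.card = k ∧ Ind (gr B) ∅ I := by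
    intro A hA B hAB hBA
    rw [not_not]
    have hE : (B \ A).card ≤ h := by
      rw [Finset.card_sdiff_of_subset hAB]
      exact Nat.sub_le_iff_le_add'.2 hBA
    obtain ⟨I, hI1, hI2, hI3⟩ := hdet A hA (B \ A) (by rw [← hh]; exact hE)
    exact ⟨I, hI1, hI2, bad_ind_of_sdiff A B I hI3⟩
  have hgood := hQ.trans (Pr_mono hp.le hp1'.le hU)
  have hQ0 := Pr_nonneg hp0.le hp1'' (fun A : Finset (Sym2 V) =>
    ¬ ∃ I ⊆ S, I.card = k ∧ Ind (gr A) ∅ I)
  have hKh : 0 ≤ K ^ h := pow_nonneg hKpos.le h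
  have hprod : Pr (p / K) (fun A : Finset (Sym2 V) =>
      ¬ ∃ I ⊆ S, I.card = k ∧ Ind (gr A) ∅ I) * (K ^ h * (3 / 4)) ≤ 1 := by
    refine le_trans ?_ hiso
    exact mul_le_mul_of_nonneg_left (mul_le_mul_of_nonneg_left hgood hKh) hQ0
  rw [← mul_assoc] at hprod
  linarith

/-- three events -/
theorem three {V : Type} [Fintype V] (p : ℝ) (hp0 : 0 ≤ p) (hp1 : p ≤ 1)
    (Q1 Q2 Q3 : Finset (Sym2 V) → Prop) (h1 : Pr p (fun A => ¬ Q1 A) ≤ 1 / 12)
    (h2 : Pr p (fun A => ¬ Q2 A) ≤ 1 / 12) (h3 : Pr p (fun A => ¬ Q3 A) ≤ 1 / 12) :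
    3 / 4 ≤ Pr p (fun A => Q1 A ∧ Q2 A ∧ Q3 A) := by
  have hnot := Pr_not p (fun A : Finset (Sym2 V) => Q1 A ∧ Q2 A ∧ Q3 A)
  have hle : Pr p (fun A : Finset (Sym2 V) => ¬ (Q1 A ∧ Q2 A ∧ Q3 A)) ≤
      1 / 12 + (1 / 12 + 1 / 12) := by
    refine (Pr_mono hp0 hp1 (Q' := fun A : Finset (Sym2 V) =>
      ¬ Q1 A ∨ (¬ Q2 A ∨ ¬ Q3 A)) ?_).trans ?_
    · intro A hA
      by_contra hcon
      push Not at hcon
      exact hA hcon
    · refine (Pr_or_le hp0 hp1 _ _).trans (add_le_add h1 ?_)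
      exact (Pr_or_le hp0 hp1 _ _).trans (add_le_add h2 h3)
  rw [hnot] at hle
  linarith

/-- the bound, with the parameters as variables -/
theorem bad_par {V : Type} [Fintype V] (S : Finset V) (k : ℕ) (K c B q l : ℝ)
    (P : Par c B q l (k : ℝ) (S.card : ℝ)) (hK : 1 ≤ K) :
    Pr (c * l / k / K) (fun A : Finset (Sym2 V) => ¬ ∃ I ⊆ S, I.card = k ∧ Ind (gr A) ∅ I) *
      K ^ (S.card ^ 2 / (256 * k)) ≤ 4 / 3 := by
  classical
  have hp0 := P.p0
  have hp1 := P.p1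
  have hp1' : c * l / k ≤ 1 := by linarith
  have he0 := P.e0
  have he1 := P.e1
  have he1' : 1 / l ≤ 1 := by linarith
  have hq0 := P.q0
  have hk0 := P.k0
  have hw1 := P.w1
  have hh : ∀ h : ℕ, h = S.card ^ 2 / (256 * k) →
      256 * (k : ℝ) * h ≤ (S.card : ℝ) ^ 2 := by
    intro h hh
    have := Nat.div_mul_le_self (S.card ^ 2) (256 * k)
    have h' : 256 * k * h ≤ S.card ^ 2 := by
      rw [mul_comm, hh]
      exact this
    exact_mod_cast h'
  have a1 : Pr (c * l / k) (fun A : Finset (Sym2 V) =>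
      ¬ U1 (gr A) S (c * l / k) (1 / l) (k * q ^ 15)) ≤ 1 / 12 :=
    g_u1 ch S _ _ _ hp0.le hp1' he0.le he1' (by positivity) P.u1c
  have a2 : Pr (c * l / k) (fun A : Finset (Sym2 V) =>
      ¬ U2 (gr A) S (c * l / k) (1 / l) (k * q ^ 15) (k * q ^ 13)) ≤ 1 / 12 :=
    g_u2 ch S _ _ _ _ hp0.le hp1' he0.le he1' (by positivity) (by positivity) P.u2a P.u2c
  rcases le_or_gt (q ^ 4) (k : ℝ) with hkq | hkq
  · -- first range
    have a3 : Pr (c * l / k) (fun A : Finset (Sym2 V) => ¬ U3 (gr A) S (q ^ 14)) ≤ 1 / 12 := by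
      refine g_u3 ch S _ _ (⌊q ^ 14⌋₊ + 1) hp0.le hp1' (by positivity) rfl ?_
      refine P.u3c hkq _ ?_
      push_cast
      exact (Nat.lt_floor_add_one _).le
    refine bad_of S k (c * l / k) K hp0 hp1 hK _ (three _ hp0.le hp1' _ _ _ a1 a2 a3) ?_
    rintro A ⟨b1, b2, b3⟩ E hE
    obtain ⟨c1, c2, c3⟩ := P.b_a
    refine detg (gr A) S E k (S.card ^ 2 / (256 * k)) (c * l / k) (1 / l) (k * q ^ 15)
      ((2 - 3 * (1 / l)) * (c * l / k)) (4 * k * q ^ 29) (q ^ 16) hE hp0 (by linarith) he0.le he1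
      P.hk10 hw1 c1 c2 c3 (P.w2 k rfl) (hh _ rfl) (by positivity) (P.hD _ (hh _ rfl))
      (by positivity) (P.fin k rfl) b1 ?_
    intro W hWS hw hD
    have h1 := DET_sumF (gr A) E S W hWS (c * l / k) (1 / l) (k * q ^ 15) (k * q ^ 13) (q ^ 14)
      (q ^ 16) hp0 he0.le he1 P.kap hw hD (by positivity) (by positivity) b2 b3
    refine h1.trans (mul_le_mul_of_nonneg_left ?_ (Nat.cast_nonneg _))
    have h2 : 2 * (c * l / k) * (k * q ^ 13) * q ^ 16 ≤ 2 * (c * l / k) * (4 * k * q ^ 29) := by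
      rw [mul_assoc (2 * (c * l / (k : ℝ)))]
      exact mul_le_mul_of_nonneg_left P.x_a (by positivity)
    linarith
  · -- second range
    have a4 : Pr (c * l / k) (fun A : Finset (Sym2 V) =>
        ¬ U4 (gr A) S (c * l / k) (1 / l) (c * l / k * (k * q ^ 15) / 2) (q ^ 8)) ≤ 1 / 12 := by
      have hS : 1 ≤ S.card := by
        have h := P.N0
        have : 0 < S.card := by exact_mod_cast h
        omega
      exact u4 ch S _ _ _ _ hp0.le hp1' he0.le he1' (by positivity) (by positivity)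
        (P.x1_b hkq) hS (P.logc_b hkq) (P.exp_b hkq)
    refine bad_of S k (c * l / k) K hp0 hp1 hK _ (three _ hp0.le hp1' _ _ _ a1 a2 a4) ?_
    rintro A ⟨b1, b2, b4⟩ E hE
    obtain ⟨c1, c2, c3⟩ := P.b_b
    obtain ⟨w1, w2⟩ := P.w_b
    refine detg (gr A) S E k (S.card ^ 2 / (256 * k)) (c * l / k) (1 / l) (k * q ^ 15)
      (2 * (1 - 1 / l) * (c * l / k) - (1 + 1 / l) ^ 2 * (c * l / k) ^ 2)
      (4 * k * q ^ 29) (q ^ 16) hE hp0 (by linarith) he0.le he1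
      P.hk10 hw1 c1 c2 c3 (P.w2 k rfl) (hh _ rfl) (by positivity) (P.hD _ (hh _ rfl))
      (by positivity) (P.fin k rfl) b1 ?_
    intro W hWS hw hD
    exact sumF (gr A) E S W (c * l / k) (1 / l) (k * q ^ 15) (k * q ^ 13)
      (c * l / k * (k * q ^ 15) / 2) (q ^ 8) (4 * k * q ^ 29) (q ^ 16) hWS hp0 he0.le he1 hw w1 w2
      hD (by positivity) (by positivity) P.x_b b2 b4

/-- **BAD in the widest range.** -/
theorem wbad : S_WBAD := by
  intro B hB
  obtain ⟨c, hc⟩ : ∃ c : ℝ, c = min (1 / 128) (1 / (10 * B)) := ⟨_, rfl⟩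
  have hc0 : 0 < c := by rw [hc]; positivity
  have hc1 : c ≤ 1 / 128 := by rw [hc]; exact min_le_left _ _
  have hcB : c * B ≤ 1 / 10 := by
    have h1 : c ≤ 1 / (10 * B) := by rw [hc]; exact min_le_right _ _
    calc c * B ≤ 1 / (10 * B) * B := mul_le_mul_of_nonneg_right h1 hB.le
      _ = 1 / 10 := by field_simp
  have hev : ∀ᶠ x : ℝ in atTop, (16 * Real.log x) ^ 2 ≤ x := by
    have h := (isLittleO_log_rpow_atTop (show (0 : ℝ) < 1 / 2 by norm_num)).bound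
      (show (0 : ℝ) < 1 / 16 by norm_num)
    filter_upwards [h, eventually_ge_atTop (1 : ℝ)] with x hx hx1
    have hx0 : 0 ≤ x := by linarith
    rw [Real.norm_of_nonneg (Real.log_nonneg hx1),
      Real.norm_of_nonneg (Real.rpow_nonneg hx0 _)] at hx
    have h1 : 16 * Real.log x ≤ x ^ (1 / 2 : ℝ) := by linarith
    have h0 : 0 ≤ 16 * Real.log x := by
      have := Real.log_nonneg hx1
      linarith
    calc (16 * Real.log x) ^ 2 ≤ (x ^ (1 / 2 : ℝ)) ^ 2 := pow_le_pow_left₀ h0 h1 2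
      _ = x := by
          rw [← Real.rpow_natCast, ← Real.rpow_mul hx0]
          norm_num
  obtain ⟨q₀, hq₀⟩ := eventually_atTop.1 ((hev.and (eventually_ge_atTop (1000 : ℝ))).and
    (eventually_ge_atTop (1 / c)))
  obtain ⟨Q, hQ⟩ : ∃ Q : ℝ, Q = max q₀ 2 := ⟨_, rfl⟩
  have hQ2 : 2 ≤ Q := by rw [hQ]; exact le_max_right _ _
  have hQq : q₀ ≤ Q := by rw [hQ]; exact le_max_left _ _
  refine ⟨c, Q ^ 16, hc0, by linarith, by linarith, one_lt_pow₀ (by linarith) (by norm_num), ?_⟩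
  intro V _ S k K hk hK hS hl
  have hk0 : (0 : ℝ) < k := by exact_mod_cast hk
  have hk1 : (1 : ℝ) ≤ k := by exact_mod_cast hk
  have hr : Q ^ 16 ≤ (S.card : ℝ) / k := by rwa [le_div_iff₀ hk0]
  have hQ0 : 0 < Q := by linarith
  have hr0 : 0 < (S.card : ℝ) / k := lt_of_lt_of_le (by positivity) hr
  obtain ⟨q, hq⟩ : ∃ q : ℝ, q = ((S.card : ℝ) / k) ^ (1 / 16 : ℝ) := ⟨_, rfl⟩
  have hq16 : q ^ 16 = (S.card : ℝ) / k := by
    rw [hq, ← Real.rpow_natCast, ← Real.rpow_mul hr0.le]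
    norm_num
  have hq0 : 0 < q := by rw [hq]; exact Real.rpow_pos_of_pos hr0 _
  have hQle : Q ≤ q := by
    by_contra hlt
    rw [not_le] at hlt
    have : q ^ 16 < Q ^ 16 := pow_lt_pow_left₀ hlt hq0.le (by norm_num)
    rw [hq16] at this
    linarith
  obtain ⟨⟨e1, e2⟩, e3⟩ := hq₀ q (hQq.trans hQle)
  have hlog : Real.log ((S.card : ℝ) / k) = 16 * Real.log q := by
    rw [← hq16, Real.log_pow]
    push_cast
    ring
  have P : Par c B q (Real.log ((S.card : ℝ) / k)) (k : ℝ) (S.card : ℝ) :=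
    { c0 := hc0
      c1 := hc1
      cB := hcB
      hl := hlog
      hq := e2
      hlq := by rw [hlog]; exact e1
      hcq := by
        rw [div_le_iff₀ hc0] at e3
        linarith
      hk := hk1
      hN := by
        rw [hq16]
        field_simp
      hlk := hl }
  exact bad_par S k K c B q _ P hK

end Pool.Agent.LGG
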