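import Pool.Agent.LGC.Det
import Pool.Agent.LGC.GenS

set_option autoImplicit false

/-!
# MP_5b54e3_co: cliques forced by local cliques, general sizes

Definitions.
-/

namespace Pool.Agent.LGG

open Finset Pool.Agent.LGC

open Classical in
/-- at most `x₁` vertices of `S` have too many neighbours in a large subset of `S` -/
def U4 {V : Type} (G : SimpleGraph V) (S : Finset V) (p η w₁ x₁ : ℝ) : Prop :=
  ∀ W ⊆ S, w₁ ≤ W.card →
    ((S.filter (fun y => (1 + η) * p * W.card < (dg G W y : ℝ))).card : ℝ) ≤ x₁

end Pool.Agent.LGG
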