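import Pool.Agent.LGG.Defs

set_option autoImplicit false

/-!
# MP_5b54e3_co, general sizes: the greedy algorithm with an abstract bound for the number of
surviving extra pairs
-/

namespace Pool.Agent.LGG

open Finset Pool.Agent.LGC

/-- one step of the greedy algorithm -/
theorem stepg {V : Type} (G : SimpleGraph V) (E : Finset (Sym2 V)) (W : Finset V)
    (p η w₀ b X μ μ' : ℝ) (hw1 : 1 ≤ w₀) (hw : w₀ ≤ W.card) (hμ' : 0 ≤ μ')
    (hμ : μ' * (1 - b) + 1 / W.card ≤ μ * (1 - (1 + η) * p))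
    (h2 : (prs G W : ℝ) ≤ (1 + η) * p * (W.card : ℝ) ^ 2)
    (h3 : ∑ v ∈ W, (DET_F E (DET_W G E W v) : ℝ) ≤
      W.card * ((DET_F E W : ℝ) * (1 - b) + 2 * p * X)) :
    ∃ v ∈ W, (1 - (1 + η) * p) * (W.card - μ * DET_F E W) - (1 + 2 * μ' * p * X) ≤
      ((DET_W G E W v).card : ℝ) - μ' * DET_F E (DET_W G E W v) := by
  classical
  have hwpos : (0 : ℝ) < W.card := by linarith
  have hF0 : (0 : ℝ) ≤ DET_F E W := Nat.cast_nonneg _
  have h1 : ∑ v ∈ W, ((W.card : ℝ) - 1 - dg G W v - DET_d E W v) ≤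
      ∑ v ∈ W, ((DET_W G E W v).card : ℝ) := Finset.sum_le_sum fun v _ => DET_W_card G E W v
  rw [Finset.sum_sub_distrib, Finset.sum_sub_distrib, Finset.sum_const, nsmul_eq_mul,
    ← DET_prs_eq, ← DET_F_eq] at h1
  have h4 : ∑ v ∈ W, ((1 - (1 + η) * p) * (W.card - μ * DET_F E W) -
      (1 + 2 * μ' * p * X)) ≤
      ∑ v ∈ W, (((DET_W G E W v).card : ℝ) - μ' * DET_F E (DET_W G E W v)) := by
    rw [Finset.sum_const, nsmul_eq_mul, Finset.sum_sub_distrib, ← Finset.mul_sum]
    have h5 : μ' * ∑ v ∈ W, (DET_F E (DET_W G E W v) : ℝ) ≤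
        μ' * (W.card * ((DET_F E W : ℝ) * (1 - b) + 2 * p * X)) :=
      mul_le_mul_of_nonneg_left h3 hμ'
    have h6 : (W.card : ℝ) * (DET_F E W * (μ' * (1 - b) + 1 / W.card)) ≤
        W.card * (DET_F E W * (μ * (1 - (1 + η) * p))) :=
      mul_le_mul_of_nonneg_left (mul_le_mul_of_nonneg_left hμ hF0) hwpos.le
    have h7 : (W.card : ℝ) * (DET_F E W * (μ' * (1 - b) + 1 / W.card)) =
        W.card * (DET_F E W * (μ' * (1 - b))) + DET_F E W := by
      field_simp
    rw [h7] at h6
    nlinarith [h1, h2, h5, h6]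
  obtain ⟨v, hv, hle⟩ := Finset.exists_le_of_sum_le (Finset.card_pos.1 (by exact_mod_cast hwpos)) h4
  exact ⟨v, hv, hle⟩

theorem detg {V : Type} (G : SimpleGraph V) (S : Finset V) (E : Finset (Sym2 V)) (k h : ℕ)
    (p η w₀ b X D : ℝ) (hE : E.card ≤ h) (hp : 0 < p) (hp4 : p ≤ 1 / 4) (hη : 0 ≤ η)
    (hη4 : η ≤ 1 / 4) (hηk : 10 * η * p * k ≤ 1) (hw1 : 1 ≤ w₀) (hb1 : b ≤ 1 / 2)
    (hba : b - (1 + η) * p ≤ p) (hab : (1 - 5 * (η * p)) * (1 - b) ≤ (1 - (1 + η) * p) ^ 2)
    (hw0 : w₀ ≤ (S.card : ℝ) / 4 * (1 - (1 + η) * p) ^ k)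
    (hkh : 256 * (k : ℝ) * h ≤ (S.card : ℝ) ^ 2) (hD : 0 < D) (hhD : 16 * (h : ℝ) ≤ D * S.card)
    (hX : 0 ≤ X)
    (hfin : (k : ℝ) * (1 + 32 * (k / S.card) * Real.exp (2 * p * k) * p * X) ≤
      (S.card : ℝ) / 2 * (1 - (1 + η) * p) ^ k)
    (u1 : U1 G S p η w₀)
    (hH : ∀ W ⊆ S, w₀ ≤ W.card → (∀ x ∈ W, (DET_d E W x : ℝ) ≤ D) →
      ∑ v ∈ W, (DET_F E (DET_W G E W v) : ℝ) ≤
        W.card * ((DET_F E W : ℝ) * (1 - b) + 2 * p * X)) :
    ∃ I ⊆ S, I.card = k ∧ Ind G E I := by
  classical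
  set a : ℝ := (1 + η) * p with ha
  set N : ℝ := (S.card : ℝ) with hN
  have hηp : 0 ≤ η * p := by positivity
  have hηp4 : η * p ≤ 1 / 16 := by nlinarith
  have ha0 : 0 < a := by rw [ha]; positivity
  have ha1 : a ≤ 5 / 16 := by rw [ha]; nlinarith
  have h1a : 0 < 1 - a := by linarith
  have h1b : 0 < 1 - b := by linarith
  have hpow : ∀ j : ℕ, 0 < (1 - a) ^ j := fun j => pow_pos h1a j
  have hNpos : 0 < N := by
    by_contra hneg
    have hneg' : N ≤ 0 := not_lt.1 hneg
    have : N / 4 * (1 - a) ^ k ≤ 0 :=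
      mul_nonpos_of_nonpos_of_nonneg (by linarith) (hpow k).le
    linarith
  set R : ℝ := (1 - a) / (1 - b) with hR
  have hRpos : 0 < R := div_pos h1a h1b
  have hRle : R ≤ Real.exp (2 * p) := by
    have h1 : R ≤ 1 + 2 * p := by
      rw [hR, div_le_iff₀ h1b]
      nlinarith
    have h2 := Real.add_one_le_exp (2 * p)
    linarith
  have hRa : 1 - 5 * (η * p) ≤ R * (1 - a) := by
    rw [hR, div_mul_eq_mul_div, le_div_iff₀ h1b]
    refine hab.trans (le_of_eq ?_)
    ring
  set δ : ℝ := 16 / N with hδ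
  have hδpos : 0 < δ := by rw [hδ]; positivity
  set τ : ℝ := 1 + 32 * (k / N) * Real.exp (2 * p * k) * p * X with hτ
  have hτ0 : 0 ≤ τ := by rw [hτ]; positivity
  set μ : ℕ → ℝ := fun j => R ^ j * ((k : ℝ) - j) * δ with hμ
  have hμ0 : ∀ j, j ≤ k → 0 ≤ μ j := by
    intro j hj
    have : (j : ℝ) ≤ k := by exact_mod_cast hj
    have h1 : 0 ≤ (k : ℝ) - j := by linarith
    simp only [hμ]
    positivity
  have hμle : ∀ j, j ≤ k → μ j ≤ 16 * (k / N) * Real.exp (2 * p * k) := by
    intro j hj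
    have hjk : (j : ℝ) ≤ k := by exact_mod_cast hj
    have h1 : R ^ j ≤ Real.exp (2 * p * k) := by
      calc R ^ j ≤ Real.exp (2 * p) ^ j := pow_le_pow_left₀ hRpos.le hRle j
        _ = Real.exp (2 * p * j) := by rw [← Real.exp_nat_mul]; ring_nf
        _ ≤ Real.exp (2 * p * k) := by
            apply Real.exp_le_exp.2
            exact mul_le_mul_of_nonneg_left hjk (by positivity)
    have h2 : (k : ℝ) - j ≤ k := by
      have : (0 : ℝ) ≤ j := Nat.cast_nonneg _
      linarith
    have h3 : 0 ≤ (k : ℝ) - j := by linarith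
    calc μ j = R ^ j * ((k : ℝ) - j) * δ := rfl
      _ ≤ Real.exp (2 * p * k) * k * δ := by
          refine mul_le_mul_of_nonneg_right ?_ hδpos.le
          exact mul_le_mul h1 h2 h3 (Real.exp_pos _).le
      _ = 16 * (k / N) * Real.exp (2 * p * k) := by rw [hδ]; ring
  -- the starting set
  set W₀ : Finset V := S.filter (fun x => (DET_d E S x : ℝ) ≤ D) with hW₀
  have hW₀S : W₀ ⊆ S := Finset.filter_subset _ _
  have hFS : (DET_F E S : ℝ) ≤ 2 * h := by
    have h1 := DET_F_le E S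
    have h2 : DET_F E S ≤ 2 * h := h1.trans (Nat.mul_le_mul_left 2 hE)
    exact_mod_cast h2
  have hW₀c : 7 * N / 8 ≤ W₀.card := by
    have h1 : ((S \ W₀).card : ℝ) * D ≤ 2 * h := by
      calc ((S \ W₀).card : ℝ) * D = ∑ x ∈ S \ W₀, D := by rw [Finset.sum_const, nsmul_eq_mul]
        _ ≤ ∑ x ∈ S \ W₀, (DET_d E S x : ℝ) := by
            refine Finset.sum_le_sum fun x hx => ?_
            rw [Finset.mem_sdiff, hW₀, Finset.mem_filter] at hx
            by_contra hlt
            exact hx.2 ⟨hx.1, (not_le.1 hlt).le⟩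
        _ ≤ ∑ x ∈ S, (DET_d E S x : ℝ) := by
            refine Finset.sum_le_sum_of_subset_of_nonneg Finset.sdiff_subset ?_
            intro x _ _
            positivity
        _ = DET_F E S := (DET_F_eq E S).symm
        _ ≤ 2 * h := hFS
    have h2 : ((S \ W₀).card : ℝ) ≤ N / 8 := by
      have h3 : ((S \ W₀).card : ℝ) * D ≤ N / 8 * D := by linarith
      exact le_of_mul_le_mul_right h3 hD
    have h4 : ((S \ W₀).card : ℝ) = N - W₀.card := by
      rw [Finset.card_sdiff_of_subset hW₀S, Nat.cast_sub (Finset.card_le_card hW₀S)]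
    linarith
  -- the induction
  have main : ∀ j, j ≤ k → ∃ I W : Finset V, I ⊆ S ∧ I.card = j ∧ Ind G E I ∧ W ⊆ W₀ ∧
      (∀ x ∈ I, ∀ y ∈ W, x ≠ y ∧ ¬ G.Adj x y ∧ s(x, y) ∉ E) ∧
      (1 - a) ^ j * (3 * N / 4) - j * τ ≤ (W.card : ℝ) - μ j * DET_F E W := by
    intro j
    induction j with
    | zero =>
      intro _
      refine ⟨∅, W₀, Finset.empty_subset _, Finset.card_empty, ?_, Finset.Subset.refl _, ?_, ?_⟩
      · intro x hx
        exact absurd hx (Finset.notMem_empty x)
      · intro x hx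
        exact absurd hx (Finset.notMem_empty x)
      · have h1 : (DET_F E W₀ : ℝ) ≤ 2 * h :=
          le_trans (by exact_mod_cast DET_F_mono E hW₀S) hFS
        have h2 : μ 0 * DET_F E W₀ ≤ N / 8 := by
          calc μ 0 * DET_F E W₀ ≤ μ 0 * (2 * h) :=
                mul_le_mul_of_nonneg_left h1 (hμ0 0 (Nat.zero_le _))
            _ = 32 * (k * h) / N := by
                simp only [hμ, hδ, pow_zero, Nat.cast_zero, sub_zero, one_mul]
                ring
            _ ≤ N / 8 := by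
                rw [div_le_iff₀ hNpos]
                nlinarith
        simp only [pow_zero, one_mul, Nat.cast_zero, zero_mul, sub_zero]
        linarith
    | succ j ih =>
      intro hj
      have hjk : j ≤ k := Nat.le_of_succ_le hj
      obtain ⟨I, W, hIS, hIc, hInd, hWW₀, hIW, hΛ⟩ := ih hjk
      have hWS : W ⊆ S := hWW₀.trans hW₀S
      have hjR : (j : ℝ) ≤ k := by exact_mod_cast hjk
      have hF0 : (0 : ℝ) ≤ DET_F E W := Nat.cast_nonneg _
      have hpowle : (1 - a) ^ k ≤ (1 - a) ^ j :=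
        pow_le_pow_of_le_one h1a.le (by linarith) hjk
      have hkτ : (j : ℝ) * τ ≤ N / 2 * (1 - a) ^ j := by
        calc (j : ℝ) * τ ≤ k * τ := mul_le_mul_of_nonneg_right hjR hτ0
          _ ≤ N / 2 * (1 - a) ^ k := hfin
          _ ≤ N / 2 * (1 - a) ^ j := mul_le_mul_of_nonneg_left hpowle (by linarith)
      have hwj : N / 4 * (1 - a) ^ j ≤ W.card := by
        have : 0 ≤ μ j * DET_F E W := mul_nonneg (hμ0 j hjk) hF0
        linarith
      have hwj0 : w₀ ≤ W.card := by
        refine le_trans (hw0.trans ?_) hwj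
        exact mul_le_mul_of_nonneg_left hpowle (by linarith)
      have hwpos : (0 : ℝ) < W.card := by linarith
      have hDW : ∀ x ∈ W, (DET_d E W x : ℝ) ≤ D := by
        intro x hx
        have h1 := hWW₀ hx
        rw [hW₀, Finset.mem_filter] at h1
        exact le_trans (by exact_mod_cast DET_d_mono E hWS x) h1.2
      have hRj : 1 / 2 ≤ (R * (1 - a)) ^ j := by
        have h5 : (0 : ℝ) ≤ 1 - 5 * (η * p) := by linarith
        have h1 : (1 - 5 * (η * p)) ^ j ≤ (R * (1 - a)) ^ j := pow_le_pow_left₀ h5 hRa j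
        have h2 : 1 + (j : ℝ) * (-(5 * (η * p))) ≤ (1 + -(5 * (η * p))) ^ j :=
          one_add_mul_le_pow (by linarith) j
        have h3 : (j : ℝ) * (5 * (η * p)) ≤ 1 / 2 := by
          have : (j : ℝ) * (5 * (η * p)) ≤ k * (5 * (η * p)) :=
            mul_le_mul_of_nonneg_right hjR (by linarith)
          nlinarith
        rw [← sub_eq_add_neg] at h2
        linarith
      have hμstep : μ (j + 1) * (1 - b) + 1 / W.card ≤ μ j * (1 - a) := by
        have h1 : μ (j + 1) * (1 - b) = μ j * (1 - a) - R ^ j * (1 - a) * δ := by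
          simp only [hμ]
          have : R * (1 - b) = 1 - a := by rw [hR, div_mul_cancel₀ _ h1b.ne']
          rw [pow_succ]
          push_cast
          calc R ^ j * R * ((k : ℝ) - (j + 1)) * δ * (1 - b)
              = R ^ j * (R * (1 - b)) * ((k : ℝ) - (j + 1)) * δ := by ring
            _ = R ^ j * (1 - a) * ((k : ℝ) - (j + 1)) * δ := by rw [this]
            _ = _ := by ring
        have h2 : 1 / (W.card : ℝ) ≤ R ^ j * (1 - a) * δ := by
          rw [div_le_iff₀ hwpos]
          have h3 : R ^ j * (1 - a) * δ * (N / 4 * (1 - a) ^ j) ≤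
              R ^ j * (1 - a) * δ * W.card :=
            mul_le_mul_of_nonneg_left hwj (by positivity)
          have h4 : R ^ j * (1 - a) * δ * (N / 4 * (1 - a) ^ j) =
              4 * (1 - a) * (R * (1 - a)) ^ j := by
            rw [hδ, mul_pow]
            field_simp
            ring
          rw [h4] at h3
          have h5 : (1 : ℝ) ≤ 4 * (1 - a) * (R * (1 - a)) ^ j := by nlinarith
          linarith
        linarith
      obtain ⟨v, hv, hle⟩ := stepg G E W p η w₀ b X (μ j) (μ (j + 1)) hw1 hwj0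
        (hμ0 (j + 1) hj) hμstep (u1 W hWS hwj0) (hH W hWS hwj0 hDW)
      refine ⟨insert v I, DET_W G E W v, ?_, ?_, ?_, (DET_W_sub G E W v).trans hWW₀, ?_, ?_⟩
      · exact Finset.insert_subset (hWS hv) hIS
      · rw [Finset.card_insert_of_notMem, hIc]
        intro hvI
        exact (hIW v hvI v hv).1 rfl
      · intro x hx y hy hxy
        rw [Finset.mem_insert] at hx hy
        rcases hx with rfl | hx
        · rcases hy with rfl | hy
          · exact absurd rfl hxy
          · have h1 := hIW y hy x hv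
            refine ⟨fun hadj => h1.2.1 hadj.symm, fun hmem => h1.2.2 ?_⟩
            rw [Sym2.eq_swap]
            exact hmem
        · rcases hy with rfl | hy
          · exact (hIW x hx y hv).2
          · exact hInd x hx y hy hxy
      · intro x hx y hy
        rw [DET_W_mem] at hy
        rw [Finset.mem_insert] at hx
        rcases hx with rfl | hx
        · exact ⟨hy.2.1, hy.2.2.1, hy.2.2.2⟩
        · exact hIW x hx y hy.1
      · have h1 : 1 + 2 * μ (j + 1) * p * X ≤ τ := by
          have h2 := hμle (j + 1) hj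
          have h3 : μ (j + 1) * (p * X) ≤
              16 * (k / N) * Real.exp (2 * p * k) * (p * X) :=
            mul_le_mul_of_nonneg_right h2 (by positivity)
          rw [hτ]
          nlinarith
        have h4 : (1 - a) * ((1 - a) ^ j * (3 * N / 4) - j * τ) ≤
            (1 - a) * ((W.card : ℝ) - μ j * DET_F E W) :=
          mul_le_mul_of_nonneg_left hΛ h1a.le
        have h5 : (1 - a) * ((j : ℝ) * τ) ≤ j * τ := by
          have : 0 ≤ (j : ℝ) * τ := by positivity
          nlinarith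
        rw [pow_succ]
        push_cast
        nlinarith [hle, h1, h4, h5]
  obtain ⟨I, W, hIS, hIc, hInd, -⟩ := main k le_rfl
  exact ⟨I, hIS, hIc, hInd⟩

end Pool.Agent.LGG
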